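import Mathlib
import Pool.Agent.H161R3.Upper

/-!
# Polynomials of low degree over `F_2` that are constant on powers of a subspace
-/

set_option autoImplicit false

open MvPolynomial Finset

namespace Pool.Agent.R558.LowDeg

/-- evaluation of a polynomial of degree `< |S|` sums to zero over the cube of the set `S` -/
theorem sum_cube {σ : Type} [Fintype σ] [DecidableEq σ] (Q : MvPolynomial σ (ZMod 2)) (D : ℕ)
    (hQ : Q.totalDegree ≤ D) (S : Finset σ) (hS : D < S.card) :
    ∑ T ∈ S.powerset, eval (fun i => if i ∈ T then (1 : ZMod 2) else 0) Q = 0 := by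
  classical
  have h : ∀ T : Finset σ, eval (fun i => if i ∈ T then (1 : ZMod 2) else 0) Q =
      ∑ d ∈ Q.support, Q.coeff d * (if d.support ⊆ T then 1 else 0) := by
    intro T
    rw [eval_eq]
    refine Finset.sum_congr rfl fun d _ => ?_
    congr 1
    split_ifs with hd
    · refine Finset.prod_eq_one fun i hi => ?_
      rw [if_pos (hd hi), one_pow]
    · rw [Finset.not_subset] at hd
      obtain ⟨i, hi, hiT⟩ := hd
      refine Finset.prod_eq_zero hi ?_
      rw [if_neg hiT, zero_pow]
      exact Finsupp.mem_support_iff.1 hi
  simp only [h]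
  rw [Finset.sum_comm]
  refine Finset.sum_eq_zero fun d hd => ?_
  rw [← Finset.mul_sum]
  have hcard : d.support.card < S.card := by
    refine lt_of_le_of_lt ?_ hS
    refine le_trans ?_ hQ
    refine le_trans ?_ (le_totalDegree hd)
    rw [Finsupp.sum, Finset.card_eq_sum_ones]
    refine Finset.sum_le_sum fun i hi => ?_
    exact Nat.one_le_iff_ne_zero.2 (Finsupp.mem_support_iff.1 hi)
  obtain ⟨i0, hi0, hi0'⟩ : ∃ i ∈ S, i ∉ d.support := by
    by_contra hcon
    push Not at hcon
    exact absurd (Finset.card_le_card (fun i hi => hcon i hi)) (not_le.2 hcard)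
  have : ∑ T ∈ S.powerset, (if d.support ⊆ T then (1 : ZMod 2) else 0) = 0 := by
    refine Finset.sum_involution (fun T _ => symmDiff T {i0}) ?_ ?_ ?_ ?_
    · intro T _
      have hiff : d.support ⊆ symmDiff T {i0} ↔ d.support ⊆ T := by
        constructor
        · intro h1 i hi
          have := h1 hi
          rw [Finset.mem_symmDiff, Finset.mem_singleton] at this
          rcases this with h2 | h2
          · exact h2.1
          · exact absurd hi (h2.1 ▸ hi0')
        · intro h1 i hi
          rw [Finset.mem_symmDiff, Finset.mem_singleton]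
          left
          exact ⟨h1 hi, fun h2 => hi0' (h2 ▸ hi)⟩
      simp only [hiff]
      split_ifs
      · decide
      · decide
    · intro T _ _ heq
      have h1 : i0 ∈ symmDiff T {i0} ↔ i0 ∈ T := by rw [heq]
      rw [Finset.mem_symmDiff, Finset.mem_singleton] at h1
      tauto
    · intro T hT
      rw [Finset.mem_powerset] at hT ⊢
      intro i hi
      rw [Finset.mem_symmDiff, Finset.mem_singleton] at hi
      rcases hi with h2 | h2
      · exact hT h2.1
      · exact h2.1 ▸ hi0
    · intro T _
      exact symmDiff_symmDiff_cancel_right _ _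
  rw [this, mul_zero]

/-- a function on the cube of degree `≤ D` that is constant on the points of weight `≤ D` is
constant -/
theorem const_of_low {σ : Type} [Fintype σ] [DecidableEq σ] (Q : MvPolynomial σ (ZMod 2)) (D : ℕ)
    (hQ : Q.totalDegree ≤ D) (c : ZMod 2)
    (h : ∀ x : σ → ZMod 2, (univ.filter fun i => x i ≠ 0).card ≤ D → eval x Q = c)
    (x : σ → ZMod 2) : eval x Q = c := by
  classical
  have key : ∀ n : ℕ, ∀ T : Finset σ, T.card = n →
      eval (fun i => if i ∈ T then (1 : ZMod 2) else 0) Q = c := by
    intro n
    induction n using Nat.strong_induction_on with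
    | _ n ih =>
      intro T hT
      by_cases hn : n ≤ D
      · apply h
        have : (univ.filter fun i => (if i ∈ T then (1 : ZMod 2) else 0) ≠ 0) = T := by
          ext i
          simp
        rw [this, hT]
        exact hn
      · have h1 := sum_cube Q D hQ T (by omega)
        rw [← Finset.insert_erase (Finset.mem_powerset_self T), Finset.sum_insert
          (Finset.notMem_erase _ _)] at h1
        have h2 : ∑ S ∈ T.powerset.erase T, eval (fun i => if i ∈ S then (1 : ZMod 2) else 0) Q =
            ∑ _S ∈ T.powerset.erase T, c := by
          refine Finset.sum_congr rfl fun S hS => ?_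
          rw [Finset.mem_erase, Finset.mem_powerset] at hS
          have hlt : S.card < T.card := Finset.card_lt_card (Finset.ssubset_iff_subset_ne.2
            ⟨hS.2, hS.1⟩)
          exact ih S.card (by omega) S rfl
        rw [h2, Finset.sum_const, Finset.card_erase_of_mem (Finset.mem_powerset_self T),
          Finset.card_powerset, nsmul_eq_mul] at h1
        have h3 : ((2 ^ T.card - 1 : ℕ) : ZMod 2) = 1 := by
          have hpos : 0 < T.card := by omega
          have : 2 ^ T.card - 1 = 2 * (2 ^ (T.card - 1) - 1) + 1 := by
            have h4 : 2 ^ T.card = 2 * 2 ^ (T.card - 1) := by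
              rw [← pow_succ']
              congr 1
              omega
            have h5 : 0 < 2 ^ (T.card - 1) := by positivity
            omega
          rw [this]
          push_cast
          have : (2 : ZMod 2) = 0 := rfl
          rw [this]
          ring
        rw [h3, one_mul] at h1
        have h6 : eval (fun i => if i ∈ T then (1 : ZMod 2) else 0) Q = -c :=
          eq_neg_of_add_eq_zero_left h1
        rw [h6]
        exact ZMod.neg_eq_self_mod_two c
  have hx : x = fun i => if i ∈ (univ.filter fun i => x i ≠ 0) then (1 : ZMod 2) else 0 := by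
    funext i
    simp only [mem_filter, mem_univ, true_and]
    have : ∀ a : ZMod 2, a = if a ≠ 0 then 1 else 0 := by decide
    exact this (x i)
  rw [hx]
  exact key _ _ rfl

/-- the number of subsets of size `≤ d` of a set with `N` elements -/
def B (N d : ℕ) : ℕ := ∑ j ∈ range (d + 1), N.choose j

theorem B_mono {N N' d : ℕ} (h : N ≤ N') : B N d ≤ B N' d :=
  Finset.sum_le_sum fun j _ => Nat.choose_le_choose j h

theorem B_le_pow (N d : ℕ) : B N d ≤ (N + 1) ^ d := by
  induction d with
  | zero => simp [B]
  | succ d ih =>
    have h1 : B N (d + 1) = B N d + N.choose (d + 1) := by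
      rw [B, Finset.sum_range_succ]
      rfl
    have h2 : N.choose (d + 1) ≤ N * N.choose d := by
      have h4 := Nat.choose_succ_right_eq N d
      -- C(N,d+1) (d+1) = C(N,d) (N-d)
      calc N.choose (d + 1) ≤ N.choose (d + 1) * (d + 1) := Nat.le_mul_of_pos_right _ (by omega)
        _ = N.choose d * (N - d) := h4
        _ ≤ N.choose d * N := Nat.mul_le_mul_left _ (Nat.sub_le _ _)
        _ = N * N.choose d := mul_comm _ _
    have h5 : N.choose d ≤ B N d :=
      Finset.single_le_sum (f := fun j => N.choose j) (fun _ _ => Nat.zero_le _)
        (Finset.self_mem_range_succ d)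
    calc B N (d + 1) = B N d + N.choose (d + 1) := h1
      _ ≤ B N d + N * B N d := Nat.add_le_add_left (h2.trans (Nat.mul_le_mul_left _ h5)) _
      _ = (N + 1) * B N d := by ring
      _ ≤ (N + 1) * (N + 1) ^ d := Nat.mul_le_mul_left _ ih
      _ = (N + 1) ^ (d + 1) := by ring

/-- points of weight at most `d` -/
theorem card_low (ι : Type) [Fintype ι] [DecidableEq ι] (d : ℕ) :
    (univ.filter fun x : ι → ZMod 2 => (univ.filter fun i => x i ≠ 0).card ≤ d).card =
      B (Fintype.card ι) d := by
  classical
  have h1 : (univ.filter fun x : ι → ZMod 2 => (univ.filter fun i => x i ≠ 0).card ≤ d).card =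
      (univ.filter fun T : Finset ι => T.card ≤ d).card := by
    refine Finset.card_nbij' (fun x => univ.filter fun i => x i ≠ 0)
      (fun T i => if i ∈ T then 1 else 0) ?_ ?_ ?_ ?_
    · intro x hx
      simpa using hx
    · intro T hT
      simpa using hT
    · intro x _
      funext i
      simp only [mem_filter, mem_univ, true_and]
      have : ∀ a : ZMod 2, (if a ≠ 0 then 1 else 0) = a := by decide
      exact this (x i)
    · intro T _
      ext i
      simp
  rw [h1]
  have h2 : (univ.filter fun T : Finset ι => T.card ≤ d) =
      (range (d + 1)).biUnion fun j => powersetCard j univ := by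
    ext T
    simp only [mem_filter, mem_univ, true_and, mem_biUnion, mem_range, mem_powersetCard,
      subset_univ]
    constructor
    · intro h
      exact ⟨T.card, by omega, rfl⟩
    · rintro ⟨j, hj, rfl⟩
      omega
  rw [h2, Finset.card_biUnion]
  · rw [B]
    refine Finset.sum_congr rfl fun j _ => ?_
    rw [Finset.card_powersetCard, Finset.card_univ]
  · intro i _ j _ hij
    rw [Function.onFun, Finset.disjoint_left]
    intro T hT hT'
    rw [mem_powersetCard] at hT hT'
    exact hij (hT.2.symm.trans hT'.2)

end Pool.Agent.R558.LowDeg
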