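import Mathlib
import Pool.Agent.R558.LowDeg.Basic

/-!
# Integers with few binary ones
-/

set_option autoImplicit false

open Finset

namespace Pool.Agent.R558.LowDeg

/-- number of binary ones -/
def wt (x : ℕ) : ℕ := (Nat.digits 2 x).sum

theorem wt_zero : wt 0 = 0 := by simp [wt]

theorem wt_even (y : ℕ) : wt (2 * y) = wt y := by
  rcases Nat.eq_zero_or_pos y with rfl | hy
  · rfl
  · unfold wt
    rw [Nat.digits_def' (by norm_num) (by omega)]
    simp

theorem wt_odd (y : ℕ) : wt (2 * y + 1) = wt y + 1 := by
  unfold wt
  rw [Nat.digits_def' (by norm_num) (by omega)]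
  have h1 : (2 * y + 1) % 2 = 1 := by omega
  have h2 : (2 * y + 1) / 2 = y := by omega
  rw [h1, h2, List.sum_cons, add_comm]

/-- number of integers `x < N` with fewer than `d` binary ones -/
def G (d N : ℕ) : ℕ := ∑ x ∈ range N, if wt x < d then 1 else 0

theorem G_zero (d : ℕ) : G d 0 = 0 := by simp [G]

theorem G_zero_left (N : ℕ) : G 0 N = 0 := by simp [G]

theorem G_succ (d N : ℕ) : G d (N + 1) = G d N + if wt N < d then 1 else 0 := by
  rw [G, Finset.sum_range_succ]
  rfl

theorem G_mono (d : ℕ) {N N' : ℕ} (h : N ≤ N') : G d N ≤ G d N' :=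
  Finset.sum_le_sum_of_subset_of_nonneg (Finset.range_mono h) fun _ _ _ => Nat.zero_le _

theorem G_even (d M : ℕ) : G d (2 * M) = G d M + G (d - 1) M := by
  induction M with
  | zero => simp [G_zero]
  | succ M ih =>
    have h1 : 2 * (M + 1) = 2 * M + 1 + 1 := by ring
    rw [h1, G_succ, G_succ, ih, G_succ, G_succ, wt_even, wt_odd]
    have h2 : (wt M + 1 < d) ↔ (wt M < d - 1) := by omega
    simp only [h2]
    ring

theorem G_odd (d M : ℕ) : G d (2 * M + 1) = G d (M + 1) + G (d - 1) M := by
  rw [G_succ, G_even, wt_even, G_succ]
  ring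

theorem G_pow (n : ℕ) : ∀ d, G d (2 ^ n) = ∑ j ∈ range d, n.choose j := by
  induction n with
  | zero =>
    intro d
    rw [pow_zero, G, Finset.sum_range_one, wt_zero]
    rcases d with _ | d
    · simp
    · rw [Finset.sum_range_succ', if_pos (Nat.succ_pos _)]
      simp
  | succ n ih =>
    intro d
    rw [pow_succ', G_even, ih, ih]
    rcases d with _ | d
    · simp
    · rw [Nat.add_sub_cancel, Finset.sum_range_succ' _ d, Finset.sum_range_succ' _ d,
        add_right_comm, ← Finset.sum_add_distrib]
      congr 1
      · refine Finset.sum_congr rfl fun j _ => ?_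
        rw [Nat.choose_succ_succ, add_comm]
      · simp

theorem G_pow' (n d : ℕ) : G (d + 1) (2 ^ n) = B n d := G_pow n (d + 1)

theorem G_add (d a b : ℕ) (hab : b ≤ a) : G d (a + b) ≤ G d a + G (d - 1) b := by
  have key : ∀ n : ℕ, ∀ a b : ℕ, a + b ≤ n → b ≤ a → ∀ d, G d (a + b) ≤ G d a + G (d - 1) b := by
    intro n
    induction n with
    | zero =>
      intro a b h _ d
      have ha : a = 0 := by omega
      have hb : b = 0 := by omega
      subst ha; subst hb
      simp [G_zero]
    | succ n ih =>
      intro a b hn hab d
      rcases Nat.eq_zero_or_pos b with rfl | hb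
      · simp [G_zero]
      rcases Nat.even_or_odd' a with ⟨a', rfl | rfl⟩ <;> rcases Nat.even_or_odd' b with ⟨b', rfl | rfl⟩
      · -- even, even
        have h1 : 2 * a' + 2 * b' = 2 * (a' + b') := by ring
        rw [h1, G_even, G_even, G_even]
        have h2 := ih a' b' (by omega) (by omega) d
        have h3 := ih a' b' (by omega) (by omega) (d - 1)
        omega
      · -- even, odd
        have h1 : 2 * a' + (2 * b' + 1) = 2 * (a' + b') + 1 := by ring
        rw [h1, G_odd, G_even, G_odd]
        have h2 := ih a' (b' + 1) (by omega) (by omega) d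
        have h3 := ih a' b' (by omega) (by omega) (d - 1)
        have h4 : a' + (b' + 1) = a' + b' + 1 := by ring
        rw [h4] at h2
        omega
      · -- odd, even
        have h1 : 2 * a' + 1 + 2 * b' = 2 * (a' + b') + 1 := by ring
        rw [h1, G_odd, G_odd, G_even]
        have h2 := ih (a' + 1) b' (by omega) (by omega) d
        have h3 := ih a' b' (by omega) (by omega) (d - 1)
        have h4 : a' + 1 + b' = a' + b' + 1 := by ring
        rw [h4] at h2
        omega
      · -- odd, odd
        have h1 : 2 * a' + 1 + (2 * b' + 1) = 2 * (a' + b' + 1) := by ring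
        rw [h1, G_even, G_odd, G_odd]
        have h4 : a' + 1 + b' = a' + b' + 1 := by ring
        rcases Nat.lt_or_ge b' a' with hlt | hge
        · have h2 := ih (a' + 1) b' (by omega) (by omega) d
          have h3 := ih a' (b' + 1) (by omega) (by omega) (d - 1)
          rw [h4] at h2
          rw [← add_assoc] at h3
          have h5 : G (d - 1) b' + G (d - 1 - 1) (b' + 1) ≤
              G (d - 1) (b' + 1) + G (d - 1 - 1) b' := by
            rw [G_succ, G_succ]
            split_ifs <;> omega
          omega
        · have hb' : b' = a' := by omega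
          subst hb'
          rcases Nat.eq_zero_or_pos b' with rfl | hpos
          · simp only [G_zero, zero_add, add_zero]
            exact le_rfl
          · have h2 := ih (b' + 1) b' (by omega) (by omega) d
            have h3 := ih (b' + 1) b' (by omega) (by omega) (d - 1)
            rw [h4] at h2 h3
            omega
  exact key (a + b) a b le_rfl hab d

end Pool.Agent.R558.LowDeg
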