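import Mathlib
import Pool.Agent.R558.LowDeg.Basic
import Pool.Agent.R558.LowDeg.Count

/-!
# Asymptotic consequences
-/

set_option autoImplicit false

open Finset

namespace Pool.Agent.R558.LowDeg

theorem pow_le_pow_mul_choose (k : ℕ) : ∀ n, k ≤ n → n ^ k ≤ k ^ k * n.choose k := by
  induction k with
  | zero => simp
  | succ k ih =>
    intro n hn
    obtain ⟨n, rfl⟩ : ∃ n', n = n' + 1 := ⟨n - 1, by omega⟩
    rcases Nat.eq_zero_or_pos k with rfl | hk
    · simp
    have h1 := ih n (by omega)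
    have h2 : (n + 1) ^ k ≤ (k + 1) ^ k * n.choose k := by
      have h3 : k ^ k * (n + 1) ^ k ≤ k ^ k * ((k + 1) ^ k * n.choose k) := by
        calc k ^ k * (n + 1) ^ k = (k * (n + 1)) ^ k := (mul_pow _ _ _).symm
          _ ≤ ((k + 1) * n) ^ k := Nat.pow_le_pow_left (by nlinarith) _
          _ = (k + 1) ^ k * n ^ k := mul_pow _ _ _
          _ ≤ (k + 1) ^ k * (k ^ k * n.choose k) := Nat.mul_le_mul_left _ h1
          _ = k ^ k * ((k + 1) ^ k * n.choose k) := by ring
      exact Nat.le_of_mul_le_mul_left h3 (by positivity)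
    calc (n + 1) ^ (k + 1) = (n + 1) * (n + 1) ^ k := by ring
      _ ≤ (n + 1) * ((k + 1) ^ k * n.choose k) := Nat.mul_le_mul_left _ h2
      _ = (k + 1) ^ k * ((n + 1) * n.choose k) := by ring
      _ = (k + 1) ^ k * ((n + 1).choose (k + 1) * (k + 1)) := by
          rw [Nat.add_one_mul_choose_eq]
      _ = (k + 1) ^ (k + 1) * (n + 1).choose (k + 1) := by ring

theorem choose_le_B {N d : ℕ} : N.choose d ≤ B N d :=
  Finset.single_le_sum (f := fun j => N.choose j) (fun _ _ => Nat.zero_le _)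
        (Finset.self_mem_range_succ d)

theorem lt_B {n d : ℕ} (hd : 1 ≤ d) : n + 1 ≤ B n d := by
  have h : ∑ j ∈ range 2, n.choose j ≤ B n d :=
    Finset.sum_le_sum_of_subset_of_nonneg (Finset.range_mono (by omega))
      fun _ _ _ => Nat.zero_le _
  rw [Finset.sum_range_succ, Finset.sum_range_one, Nat.choose_zero_right, Nat.choose_one_right] at h
  omega

/-- fixed degree, upper bound -/
theorem fixed_upper (r s D n m : ℕ) (hD : 2 ≤ D) (hn : 1 ≤ n)
    (hm : (s * D * 2 ^ r * (r + 1) ^ (D - 1) + 1) * n ^ (D - 1) ≤ m) :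
    s * D * ((2 ^ r - 1) * B (r * (n - 1)) (D - 1)) + (n - 1) < m := by
  have h1 : B (r * (n - 1)) (D - 1) ≤ (r + 1) ^ (D - 1) * n ^ (D - 1) := by
    refine (B_le_pow _ _).trans ?_
    rw [← mul_pow]
    refine Nat.pow_le_pow_left ?_ _
    calc r * (n - 1) + 1 ≤ r * n + 1 * n :=
          Nat.add_le_add (Nat.mul_le_mul_left _ (Nat.sub_le _ _)) (by omega)
      _ = (r + 1) * n := by ring
  have h2 : n ≤ n ^ (D - 1) := Nat.le_self_pow (by omega) n
  have h3 : s * D * ((2 ^ r - 1) * B (r * (n - 1)) (D - 1)) ≤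
      s * D * 2 ^ r * (r + 1) ^ (D - 1) * n ^ (D - 1) := by
    calc s * D * ((2 ^ r - 1) * B (r * (n - 1)) (D - 1))
        ≤ s * D * (2 ^ r * ((r + 1) ^ (D - 1) * n ^ (D - 1))) :=
          Nat.mul_le_mul_left _ (Nat.mul_le_mul (Nat.sub_le _ _) h1)
      _ = _ := by ring
  have h4 : (s * D * 2 ^ r * (r + 1) ^ (D - 1) + 1) * n ^ (D - 1) =
      s * D * 2 ^ r * (r + 1) ^ (D - 1) * n ^ (D - 1) + n ^ (D - 1) := by ring
  omega

/-- fixed degree, lower bound -/
theorem fixed_lower (r d n m : ℕ) (hr : 1 ≤ r) (hd : 1 ≤ d) (hdn : d ≤ n) (hrn : r ≤ n)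
    (hm : d ^ (d * (r - 1)) * r ^ r * m ≤ n ^ (d * (r - 1))) :
    m * B n d ≤ (B n d).choose r := by
  set S := B n d with hS
  have h1 : n ^ d ≤ d ^ d * S := (pow_le_pow_mul_choose d n hdn).trans
    (Nat.mul_le_mul_left _ choose_le_B)
  have h2 : n ^ (d * (r - 1)) ≤ d ^ (d * (r - 1)) * S ^ (r - 1) := by
    rw [pow_mul, pow_mul, ← mul_pow]
    exact Nat.pow_le_pow_left h1 _
  have h3 : r ^ r * m ≤ S ^ (r - 1) := by
    refine Nat.le_of_mul_le_mul_left (?_ : d ^ (d * (r - 1)) * (r ^ r * m) ≤ _)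
      (by positivity : 0 < d ^ (d * (r - 1)))
    rw [← mul_assoc]
    exact hm.trans h2
  have hrS : r ≤ S := by
    have := lt_B (n := n) hd
    omega
  have h4 := pow_le_pow_mul_choose r S hrS
  refine Nat.le_of_mul_le_mul_left (?_ : r ^ r * (m * S) ≤ r ^ r * S.choose r) (by positivity)
  refine le_trans ?_ h4
  calc r ^ r * (m * S) = (r ^ r * m) * S := by ring
    _ ≤ S ^ (r - 1) * S := Nat.mul_le_mul_right _ h3
    _ = S ^ r := by
        rw [← pow_succ]
        congr 1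
        omega

/-- estimates for the lower bound -/
theorem ev_lower (r : ℕ) (hr : 1 ≤ r) (ε : ℝ) (hε : 0 < ε) (hε1 : ε ≤ 1) :
    ∀ᶠ k : ℕ in Filter.atTop, ∀ D : ℕ, ε * Real.log k < D →
      2 * r ≤ 2 ^ (min (D / r) (Nat.log 2 k)) ∧ 3 ≤ 2 ^ (min (D / r) (Nat.log 2 k)) ∧
      (k : ℝ) ^ (ε * Real.log 2 / (2 * r)) ≤
        (((2 ^ (min (D / r) (Nat.log 2 k)) - 1) / 2 : ℕ) : ℝ) := by
  set η : ℝ := ε * Real.log 2 / (2 * r) with hη
  have hr0 : (0 : ℝ) < r := by exact_mod_cast hr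
  have hlog2 : 0 < Real.log 2 := Real.log_pos (by norm_num)
  have hη0 : 0 < η := by positivity
  have hlim : Filter.Tendsto (fun k : ℕ => (k : ℝ) ^ η) Filter.atTop Filter.atTop :=
    (tendsto_rpow_atTop hη0).comp tendsto_natCast_atTop_atTop
  filter_upwards [hlim.eventually_ge_atTop (4 * r + 12), Filter.eventually_ge_atTop 2] with k hk hk2
  intro D hD
  have hk0 : (0 : ℝ) < k := by positivity
  have hk1 : (1 : ℝ) < k := by exact_mod_cast (by omega : 1 < k)
  have hlogk : 0 < Real.log k := Real.log_pos hk1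
  set d := min (D / r) (Nat.log 2 k) with hd
  have hd1 : ε / r * Real.log k - 1 ≤ d := by
    have h1 : ε / r * Real.log k - 1 ≤ (D / r : ℕ) := by
      have h2 : D < r * (D / r) + r := by
        have h := Nat.lt_mul_div_succ D (show 0 < r by omega)
        rwa [mul_add, mul_one] at h
      have h3 : (D : ℝ) < r * (D / r : ℕ) + r := by exact_mod_cast h2
      have h4 : ε * Real.log k < r * ((D / r : ℕ) + 1) := by
        calc ε * Real.log k < D := hD
          _ < r * (D / r : ℕ) + r := h3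
          _ = _ := by ring
      have h5 : ε / r * Real.log k < (D / r : ℕ) + 1 := by
        rw [div_mul_eq_mul_div, div_lt_iff₀ hr0]
        linarith
      linarith
    have h2 : ε / r * Real.log k - 1 ≤ (Nat.log 2 k : ℕ) := by
      have h3 : k < 2 ^ (Nat.log 2 k + 1) := Nat.lt_pow_succ_log_self (by norm_num) k
      have h4 : (k : ℝ) < 2 ^ (Nat.log 2 k + 1) := by exact_mod_cast h3
      have h5 : Real.log k < (Nat.log 2 k + 1 : ℕ) * Real.log 2 := by
        rw [← Real.log_pow]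
        exact Real.log_lt_log hk0 h4
      have h6 : Real.log 2 ≤ 1 := by
        have := Real.log_two_lt_d9
        linarith
      have h7 : Real.log k < (Nat.log 2 k : ℝ) + 1 := by
        push_cast at h5
        nlinarith [Nat.cast_nonneg (α := ℝ) (Nat.log 2 k)]
      have h8 : ε / r * Real.log k ≤ Real.log k := by
        refine mul_le_of_le_one_left hlogk.le ?_
        rw [div_le_one hr0]
        have : (1 : ℝ) ≤ r := by exact_mod_cast hr
        linarith
      linarith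
    rw [hd, Nat.cast_min]
    exact le_min h1 h2
  have hS : (k : ℝ) ^ η * (k : ℝ) ^ η / 2 ≤ (2 : ℝ) ^ d := by
    rw [← Real.rpow_add hk0, Real.rpow_def_of_pos hk0]
    have h1 : (2 : ℝ) ^ d = Real.exp (Real.log 2 * d) := by
      rw [← Real.rpow_natCast, Real.rpow_def_of_pos (by norm_num)]
    rw [h1, div_le_iff₀ (by norm_num)]
    have h2 : Real.exp (Real.log 2 * d) * 2 = Real.exp (Real.log 2 * d + Real.log 2) := by
      rw [Real.exp_add, Real.exp_log (by norm_num)]
    rw [h2]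
    refine Real.exp_le_exp.2 ?_
    have h3 : η + η = ε / r * Real.log 2 := by
      rw [hη]
      field_simp
      ring
    rw [h3]
    nlinarith
  have hbig : (k : ℝ) ^ η * (k : ℝ) ^ η ≥ (4 * r + 12) * (k : ℝ) ^ η :=
    mul_le_mul_of_nonneg_right hk (by positivity)
  have hr1 : (1 : ℝ) ≤ r := by exact_mod_cast hr
  have hSr : (2 * (r : ℝ) + 6) * (k : ℝ) ^ η ≤ (2 : ℝ) ^ d := by
    calc (2 * (r : ℝ) + 6) * (k : ℝ) ^ η = (4 * r + 12) * (k : ℝ) ^ η / 2 := by ring
      _ ≤ (k : ℝ) ^ η * (k : ℝ) ^ η / 2 := by linarith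
      _ ≤ _ := hS
  have hkη : (1 : ℝ) ≤ (k : ℝ) ^ η := by linarith
  refine ⟨?_, ?_, ?_⟩
  · have : ((2 * r : ℕ) : ℝ) ≤ ((2 ^ d : ℕ) : ℝ) := by
      push_cast
      nlinarith
    exact_mod_cast this
  · have : ((3 : ℕ) : ℝ) ≤ ((2 ^ d : ℕ) : ℝ) := by
      push_cast
      nlinarith
    exact_mod_cast this
  · have h1 : 2 ^ d ≤ 2 * ((2 ^ d - 1) / 2) + 2 := by omega
    have h2 : (2 : ℝ) ^ d ≤ 2 * (((2 ^ d - 1) / 2 : ℕ) : ℝ) + 2 := by exact_mod_cast h1
    nlinarith

end Pool.Agent.R558.LowDeg
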