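import Mathlib
import Pool.Agent.R558.LowDeg.Count

/-!
# Large subsets on which polynomials of low degree take arbitrary values
-/

set_option autoImplicit false

open MvPolynomial Finset Module

namespace Pool.Agent.R558.LowDeg

/-- restrictions to `X` of the polynomials of degree `< d` -/
def PF (m d : ℕ) (X : Finset (Fin m → ZMod 2)) : Submodule (ZMod 2) (X → ZMod 2) where
  carrier := {f | ∃ Q : MvPolynomial (Fin m) (ZMod 2), (Q = 0 ∨ Q.totalDegree < d) ∧
    ∀ x, f x = eval x.1 Q}
  add_mem' := by
    rintro f g ⟨P, hP, hf⟩ ⟨Q, hQ, hg⟩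
    refine ⟨P + Q, ?_, fun x => by rw [Pi.add_apply, hf, hg, map_add]⟩
    rcases hP with rfl | hP
    · rw [zero_add]; exact hQ
    · rcases hQ with rfl | hQ
      · rw [add_zero]; exact Or.inr hP
      · exact Or.inr ((totalDegree_add _ _).trans_lt (max_lt hP hQ))
  zero_mem' := ⟨0, Or.inl rfl, fun x => by simp⟩
  smul_mem' := by
    rintro c f ⟨P, hP, hf⟩
    refine ⟨C c * P, ?_, fun x => by rw [Pi.smul_apply, hf, map_mul, eval_C, smul_eq_mul]⟩
    rcases hP with rfl | hP
    · left; simp
    · right
      refine (totalDegree_mul _ _).trans_lt ?_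
      rw [totalDegree_C, zero_add]
      exact hP

theorem card_PF (d : ℕ) : ∀ (m : ℕ) (X : Finset (Fin m → ZMod 2)),
    2 ^ G d X.card ≤ Nat.card (PF m d X) := by
  classical
  intro m
  induction m generalizing d with
  | zero =>
    intro X
    have hX : X.card ≤ 1 := by
      refine (Finset.card_le_univ X).trans ?_
      simp
    rcases Nat.eq_zero_or_pos X.card with h0 | h1
    · rw [h0, G_zero, pow_zero]
      exact Nat.card_pos
    · have h2 : X.card = 1 := by omega
      rcases d with _ | d
      · rw [G_zero_left, pow_zero]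
        exact Nat.card_pos
      · have h3 : G (d + 1) X.card = 1 := by
          rw [h2, G, Finset.sum_range_one, wt_zero, if_pos (Nat.succ_pos d)]
        rw [h3, pow_one, Nat.succ_le_iff, Finite.one_lt_card_iff_nontrivial]
        obtain ⟨x, hx⟩ := Finset.card_pos.1 h1
        refine ⟨⟨⟨fun _ => 0, 0, Or.inl rfl, fun x => by simp⟩,
          ⟨fun _ => 1, 1, Or.inr (by simp), fun x => by simp⟩, ?_⟩⟩
        intro h
        have h4 : (0 : ZMod 2) = 1 := congrFun (congrArg Subtype.val h) ⟨x, hx⟩
        exact absurd h4 (by decide)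
  | succ m ih =>
    intro X
    let X0 := univ.filter fun v : Fin m → ZMod 2 => (Fin.cons 0 v : Fin (m + 1) → ZMod 2) ∈ X
    let X1 := univ.filter fun v : Fin m → ZMod 2 => (Fin.cons 1 v : Fin (m + 1) → ZMod 2) ∈ X
    have hcard : X.card = (X0 ∪ X1).card + (X0 ∩ X1).card := by
      rw [Finset.card_union_add_card_inter]
      have e0 : X0.card = (X.filter fun x => x 0 = 0).card := by
        refine Finset.card_nbij' (fun v => Fin.cons 0 v) (fun x => Fin.tail x) ?_ ?_ ?_ ?_
        · intro v hv
          have := (Finset.mem_filter.1 hv).2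
          exact Finset.mem_coe.2 (Finset.mem_filter.2 ⟨this, by simp⟩)
        · intro x hx
          have hx := Finset.mem_filter.1 (Finset.mem_coe.1 hx)
          refine Finset.mem_coe.2 (Finset.mem_filter.2 ⟨mem_univ _, ?_⟩)
          rw [← hx.2, Fin.cons_self_tail]
          exact hx.1
        · intro v _
          simp
        · intro x hx
          have hx := Finset.mem_filter.1 (Finset.mem_coe.1 hx)
          show (Fin.cons 0 (Fin.tail x) : Fin (m + 1) → ZMod 2) = x
          rw [← hx.2, Fin.cons_self_tail]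
      have e1 : X1.card = (X.filter fun x => ¬ x 0 = 0).card := by
        have h01 : ∀ a : ZMod 2, ¬ a = 0 → a = 1 := by decide
        refine Finset.card_nbij' (fun v => Fin.cons 1 v) (fun x => Fin.tail x) ?_ ?_ ?_ ?_
        · intro v hv
          have := (Finset.mem_filter.1 hv).2
          exact Finset.mem_coe.2 (Finset.mem_filter.2 ⟨this, by simp⟩)
        · intro x hx
          have hx := Finset.mem_filter.1 (Finset.mem_coe.1 hx)
          refine Finset.mem_coe.2 (Finset.mem_filter.2 ⟨mem_univ _, ?_⟩)
          rw [← h01 _ hx.2, Fin.cons_self_tail]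
          exact hx.1
        · intro v _
          simp
        · intro x hx
          have hx := Finset.mem_filter.1 (Finset.mem_coe.1 hx)
          show (Fin.cons 1 (Fin.tail x) : Fin (m + 1) → ZMod 2) = x
          rw [← h01 _ hx.2, Fin.cons_self_tail]
      rw [e0, e1, Finset.card_filter_add_card_filter_not]
    have hle : (X0 ∩ X1).card ≤ (X0 ∪ X1).card :=
      Finset.card_le_card (Finset.inter_subset_union)
    have hG : G d X.card ≤ G d (X0 ∪ X1).card + G (d - 1) (X0 ∩ X1).card := by
      rw [hcard]
      exact G_add d _ _ hle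
    refine (Nat.pow_le_pow_right (by norm_num) hG).trans ?_
    rw [pow_add]
    refine (Nat.mul_le_mul (ih d _) (ih (d - 1) _)).trans ?_
    rw [← Nat.card_prod]
    -- the injection
    have hF : ∀ f : PF m d (X0 ∪ X1), ∃ Q : MvPolynomial (Fin m) (ZMod 2),
        (Q = 0 ∨ Q.totalDegree < d) ∧ ∀ x, f.1 x = eval x.1 Q := fun f => f.2
    have hG : ∀ f : PF m (d - 1) (X0 ∩ X1), ∃ Q : MvPolynomial (Fin m) (ZMod 2),
        (Q = 0 ∨ Q.totalDegree < d - 1) ∧ ∀ x, f.1 x = eval x.1 Q := fun f => f.2
    choose QF hF1 hF2 using hF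
    choose QG hG1 hG2 using hG
    have hev : ∀ (f : PF m d (X0 ∪ X1)) (g : PF m (d - 1) (X0 ∩ X1)) (e : ZMod 2)
        (v : Fin m → ZMod 2), eval (Fin.cons e v : Fin (m + 1) → ZMod 2)
          (rename Fin.succ (QF f) + MvPolynomial.X 0 * rename Fin.succ (QG g)) =
          eval v (QF f) + e * eval v (QG g) := by
      intro f g e v
      rw [map_add, map_mul, eval_rename, eval_rename, eval_X, Fin.cons_zero]
      have : (Fin.cons e v : Fin (m + 1) → ZMod 2) ∘ Fin.succ = v := by
        funext i
        simp
      rw [this]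
    let Φ : PF m d (X0 ∪ X1) × PF m (d - 1) (X0 ∩ X1) → PF (m + 1) d X := fun p =>
      ⟨fun x => eval x.1 (rename Fin.succ (QF p.1) + MvPolynomial.X 0 * rename Fin.succ (QG p.2)), _, by
        have hA : rename Fin.succ (QF p.1) = (0 : MvPolynomial (Fin (m + 1)) (ZMod 2)) ∨
            (rename Fin.succ (QF p.1) : MvPolynomial (Fin (m + 1)) (ZMod 2)).totalDegree < d := by
          rcases hF1 p.1 with h | h
          · left; rw [h, map_zero]
          · right
            exact (totalDegree_rename_le _ _).trans_lt h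
        have hB : (MvPolynomial.X 0 * rename Fin.succ (QG p.2) = (0 : MvPolynomial (Fin (m + 1)) (ZMod 2))) ∨
            ((MvPolynomial.X 0 * rename Fin.succ (QG p.2) : MvPolynomial (Fin (m + 1)) (ZMod 2))).totalDegree <
              d := by
          rcases hG1 p.2 with h | h
          · left; rw [h, map_zero, mul_zero]
          · right
            refine (totalDegree_mul _ _).trans_lt ?_
            have h1 := totalDegree_rename_le (R := ZMod 2) Fin.succ (QG p.2)
            rw [totalDegree_X]
            omega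
        rcases hA with hA | hA
        · rw [hA, zero_add]; exact hB
        · rcases hB with hB | hB
          · rw [hB, add_zero]; exact Or.inr hA
          · exact Or.inr ((totalDegree_add _ _).trans_lt (max_lt hA hB)), fun x => rfl⟩
    refine Nat.card_le_card_of_injective Φ ?_
    rintro ⟨f, g⟩ ⟨f', g'⟩ h
    have hx : ∀ e v, (hxX : (Fin.cons e v : Fin (m + 1) → ZMod 2) ∈ X) →
        eval v (QF f) + e * eval v (QG g) = eval v (QF f') + e * eval v (QG g') := by
      intro e v hxX
      have := congrFun (congrArg Subtype.val h) ⟨_, hxX⟩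
      simp only [Φ] at this
      rw [hev, hev] at this
      exact this
    have hgg : g = g' := by
      apply Subtype.ext
      funext v
      have hv := Finset.mem_inter.1 v.2
      have h0 := hx 0 v.1 (Finset.mem_filter.1 hv.1).2
      have h1 := hx 1 v.1 (Finset.mem_filter.1 hv.2).2
      rw [zero_mul, zero_mul, add_zero, add_zero] at h0
      rw [one_mul, one_mul, h0, add_right_inj] at h1
      rw [hG2, hG2]
      exact h1
    subst hgg
    have hff : f = f' := by
      apply Subtype.ext
      funext v
      rw [hF2, hF2]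
      rcases Finset.mem_union.1 v.2 with hv | hv
      · have h0 := hx 0 v.1 (Finset.mem_filter.1 hv).2
        rwa [add_left_inj] at h0
      · have h0 := hx 1 v.1 (Finset.mem_filter.1 hv).2
        rwa [add_left_inj] at h0
    rw [hff]

/-- a subspace of a coordinate space has an information set -/
theorem info_set {ι : Type} [Fintype ι] [DecidableEq ι] (E : Submodule (ZMod 2) (ι → ZMod 2)) :
    ∃ J : Finset ι, J.card = finrank (ZMod 2) E ∧
      ∀ y : ι → ZMod 2, ∃ f ∈ E, ∀ j ∈ J, f j = y j := by
  classical
  let v : ι → Module.Dual (ZMod 2) E := fun i => (LinearMap.proj i) ∘ₗ E.subtype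
  obtain ⟨κ, a, ha, hspan, hli⟩ := exists_linearIndependent' (ZMod 2) v
  have : Finite κ := Finite.of_injective a ha
  have : Fintype κ := Fintype.ofFinite κ
  have hcard : Fintype.card κ ≤ finrank (ZMod 2) E := by
    have := hli.fintype_card_le_finrank
    rwa [Subspace.dual_finrank_eq] at this
  let T : E →ₗ[ZMod 2] (κ → ZMod 2) := LinearMap.pi fun k => v (a k)
  have hinj : Function.Injective T := by
    rw [injective_iff_map_eq_zero]
    intro f hf
    have h1 : ∀ φ ∈ Submodule.span (ZMod 2) (Set.range (v ∘ a)), φ f = 0 := by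
      intro φ hφ
      refine Submodule.span_induction ?_ ?_ ?_ ?_ hφ
      · rintro _ ⟨k, rfl⟩
        exact congrFun hf k
      · rfl
      · intro x y _ _ hx hy
        rw [LinearMap.add_apply, hx, hy, add_zero]
      · intro c x _ hx
        rw [LinearMap.smul_apply, hx, smul_zero]
    rw [hspan] at h1
    apply Subtype.ext
    funext i
    exact h1 (v i) (Submodule.subset_span ⟨i, rfl⟩)
  have hle := LinearMap.finrank_le_finrank_of_injective hinj
  rw [finrank_fintype_fun_eq_card] at hle
  have heq : finrank (ZMod 2) E = Fintype.card κ := le_antisymm hle hcard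
  have hsurj : Function.Surjective T := by
    rw [← LinearMap.injective_iff_surjective_of_finrank_eq_finrank (by
      rw [finrank_fintype_fun_eq_card]; exact heq)]
    exact hinj
  refine ⟨univ.map ⟨a, ha⟩, ?_, ?_⟩
  · rw [Finset.card_map, Finset.card_univ, heq]
  · intro y
    obtain ⟨f, hf⟩ := hsurj fun k => y (a k)
    refine ⟨f.1, f.2, ?_⟩
    intro j hj
    obtain ⟨k, -, rfl⟩ := Finset.mem_map.1 hj
    exact congrFun hf k

/-- **Large separated subsets.** Every set of `N` points contains `G (d + 1) N` points that are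
separated from each other by polynomials of degree at most `d`. -/
theorem exists_sep (m d : ℕ) (X : Finset (Fin m → ZMod 2)) (S : ℕ) (hS : S ≤ G (d + 1) X.card) :
    ∃ Y ⊆ X, Y.card = S ∧ ∀ x ∈ Y, ∃ Q : MvPolynomial (Fin m) (ZMod 2), Q.totalDegree ≤ d ∧
      eval x Q = 1 ∧ ∀ y ∈ Y.erase x, eval y Q = 0 := by
  classical
  obtain ⟨J, hJ, hJ2⟩ := info_set (PF m (d + 1) X)
  have h1 : G (d + 1) X.card ≤ finrank (ZMod 2) (PF m (d + 1) X) := by
    have h2 := card_PF (d + 1) m X
    have h3 : Nat.card (PF m (d + 1) X) = 2 ^ finrank (ZMod 2) (PF m (d + 1) X) := by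
      rw [Module.natCard_eq_pow_finrank (K := ZMod 2), Nat.card_zmod]
    rw [h3] at h2
    exact (Nat.pow_le_pow_iff_right (by norm_num)).1 h2
  have h2 : S ≤ (J.map (Function.Embedding.subtype (· ∈ X))).card := by
    rw [Finset.card_map, hJ]
    omega
  obtain ⟨Y, hYJ, hY⟩ := Finset.exists_subset_card_eq h2
  refine ⟨Y, ?_, hY, ?_⟩
  · intro y hy
    obtain ⟨z, _, rfl⟩ := Finset.mem_map.1 (hYJ hy)
    exact z.2
  · intro x hx
    obtain ⟨f, ⟨Q, hQ, hf⟩, hfJ⟩ := hJ2 fun z => if z.1 = x then 1 else 0
    refine ⟨Q, ?_, ?_, ?_⟩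
    · rcases hQ with rfl | hQ
      · simp
      · omega
    · obtain ⟨z, hz, hzx⟩ := Finset.mem_map.1 (hYJ hx)
      have h3 := hfJ z hz
      rw [hf] at h3
      have h4 : z.1 = x := hzx
      rw [h4] at h3
      rw [h3, if_pos rfl]
    · intro y hy
      obtain ⟨hyx, hyY⟩ := Finset.mem_erase.1 hy
      obtain ⟨z, hz, hzy⟩ := Finset.mem_map.1 (hYJ hyY)
      have h3 := hfJ z hz
      rw [hf] at h3
      have h4 : z.1 = y := hzy
      rw [h4] at h3
      rw [h3, if_neg hyx]

end Pool.Agent.R558.LowDeg
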