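import Mathlib
import Pool.Agent.R558.LowDeg.Basic

/-!
# Extending a subspace on whose power finitely many low degree polynomials are constant
-/

set_option autoImplicit false

open MvPolynomial Finset Module

namespace Pool.Agent.R558.LowDeg

/-- the point of the space with coordinates indexed by `Fin r × Fin m` given by `r` vertices -/
def pt {r m : ℕ} (v : Fin r → Fin m → ZMod 2) : Fin r × Fin m → ZMod 2 := fun z => v z.1 z.2

/-- number of points of weight `≤ D` of `F_2 ^ (r × (t + 1))` that involve the last coordinate -/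
theorem card_new (r t D : ℕ) (hD : 1 ≤ D) :
    (univ.filter fun z : Fin r × Fin (t + 1) → ZMod 2 =>
      (univ.filter fun i => z i ≠ 0).card ≤ D ∧ ∃ i : Fin r, z (i, Fin.last t) ≠ 0).card ≤
      (2 ^ r - 1) * B (r * t) (D - 1) := by
  classical
  have h1 := card_low (Fin r × Fin t) (D - 1)
  rw [Fintype.card_prod, Fintype.card_fin, Fintype.card_fin] at h1
  have h2 : ((univ : Finset (Fin r → ZMod 2)).erase 0).card = 2 ^ r - 1 := by
    rw [Finset.card_erase_of_mem (mem_univ _), Finset.card_univ]
    simp
  rw [← h1, ← h2, ← Finset.card_product]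
  refine Finset.card_le_card_of_injOn
    (fun z => ((fun i => z (i, Fin.last t)), fun p : Fin r × Fin t => z (p.1, p.2.castSucc)))
    ?_ ?_
  · intro z hz
    simp only [coe_filter, mem_univ, true_and, Set.mem_ofPred_eq] at hz
    obtain ⟨hz1, i, hi⟩ := hz
    simp only [coe_product, Set.mem_prod, mem_coe, mem_erase, mem_univ, and_true, mem_filter,
      true_and]
    constructor
    · intro h
      exact hi (congrFun h i)
    · have hsub : ((univ.filter fun p : Fin r × Fin t => z (p.1, p.2.castSucc) ≠ 0).map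
          ⟨fun p => (p.1, p.2.castSucc), by
            rintro ⟨a, b⟩ ⟨c, d⟩ h
            simp only [Prod.mk.injEq] at h
            exact Prod.ext h.1 (Fin.castSucc_injective _ h.2)⟩) ∪ {(i, Fin.last t)} ⊆
          univ.filter fun p => z p ≠ 0 := by
        intro p hp
        rw [mem_union, mem_map, mem_singleton] at hp
        rw [mem_filter]
        refine ⟨mem_univ _, ?_⟩
        rcases hp with ⟨q, hq, rfl⟩ | rfl
        · exact (mem_filter.1 hq).2
        · exact hi
      have hdisj : Disjoint ((univ.filter fun p : Fin r × Fin t => z (p.1, p.2.castSucc) ≠ 0).map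
          ⟨fun p => (p.1, p.2.castSucc), by
            rintro ⟨a, b⟩ ⟨c, d⟩ h
            simp only [Prod.mk.injEq] at h
            exact Prod.ext h.1 (Fin.castSucc_injective _ h.2)⟩) {(i, Fin.last t)} := by
        rw [Finset.disjoint_singleton_right, mem_map]
        rintro ⟨q, _, hq⟩
        have := congrArg Prod.snd hq
        exact Fin.castSucc_ne_last _ this
      have hle := Finset.card_le_card hsub
      rw [Finset.card_union_of_disjoint hdisj, Finset.card_map, Finset.card_singleton] at hle
      omega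
  · intro z _ z' _ h
    simp only [Prod.mk.injEq] at h
    funext ⟨a, b⟩
    refine Fin.lastCases ?_ (fun j => ?_) b
    · exact congrFun h.1 a
    · exact congrFun h.2 (a, j)

/-- **One step.** -/
theorem step (r m s D t : ℕ) (hD : 1 ≤ D)
    (P : Fin s → MvPolynomial (Fin r × Fin m) (ZMod 2)) (hP : ∀ l, (P l).totalDegree ≤ D)
    (hm : s * D * ((2 ^ r - 1) * B (r * t) (D - 1)) + t < m)
    (L : (Fin t → ZMod 2) →ₗ[ZMod 2] (Fin m → ZMod 2)) (hL : Function.Injective L)
    (hc : ∀ (a : Fin r → Fin t → ZMod 2) l, eval (pt fun i => L (a i)) (P l) = eval 0 (P l)) :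
    ∃ L' : (Fin (t + 1) → ZMod 2) →ₗ[ZMod 2] (Fin m → ZMod 2), Function.Injective L' ∧
      ∀ (a : Fin r → Fin (t + 1) → ZMod 2) l, eval (pt fun i => L' (a i)) (P l) =
        eval 0 (P l) := by
  classical
  have : Fact (Nat.Prime 2) := ⟨Nat.prime_two⟩
  obtain ⟨W, hW⟩ := Submodule.exists_isCompl (LinearMap.range L)
  have hrank : finrank (ZMod 2) W = m - t := by
    have h1 := Submodule.finrank_add_eq_of_isCompl hW
    rw [LinearMap.finrank_range_of_inj hL, Module.finrank_fin_fun, Module.finrank_fin_fun] at h1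
    omega
  let e0 : (Fin (m - t) → ZMod 2) ≃ₗ[ZMod 2] W :=
    (Module.finBasisOfFinrankEq (ZMod 2) W hrank).equivFun.symm
  let e : (Fin (m - t) → ZMod 2) →ₗ[ZMod 2] (Fin m → ZMod 2) := W.subtype ∘ₗ e0.toLinearMap
  have heW : ∀ w, e w ∈ W := fun w => (e0 w).2
  have heinj : Function.Injective e := by
    intro x y h
    exact e0.injective (Subtype.ext h)
  -- the extended map
  let Lx : (Fin (m - t) → ZMod 2) → (Fin (t + 1) → ZMod 2) →ₗ[ZMod 2] (Fin m → ZMod 2) :=
    fun w => L ∘ₗ LinearMap.funLeft (ZMod 2) (ZMod 2) Fin.castSucc +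
      (LinearMap.proj (Fin.last t)).smulRight (e w)
  have hLx : ∀ w a, Lx w a = L (fun i => a i.castSucc) + a (Fin.last t) • e w := fun _ _ => rfl
  -- the index set
  let Z := univ.filter fun z : Fin r × Fin (t + 1) → ZMod 2 =>
      (univ.filter fun i => z i ≠ 0).card ≤ D ∧ ∃ i : Fin r, z (i, Fin.last t) ≠ 0
  have hZ : Z.card ≤ (2 ^ r - 1) * B (r * t) (D - 1) := card_new r t D hD
  let sub : (Fin r × Fin (t + 1) → ZMod 2) → Fin r × Fin m → MvPolynomial (Fin (m - t)) (ZMod 2) :=
    fun z p => C (L (fun j => z (p.1, j.castSucc)) p.2) +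
      ∑ k : Fin (m - t), C (z (p.1, Fin.last t) * e (Pi.single k 1) p.2) * X k
  have hsub : ∀ z p, (sub z p).totalDegree ≤ 1 := by
    intro z p
    refine (totalDegree_add _ _).trans ?_
    rw [totalDegree_C]
    refine max_le (Nat.zero_le _) ?_
    refine totalDegree_finsetSum_le fun k _ => ?_
    refine (totalDegree_mul _ _).trans ?_
    rw [totalDegree_C, totalDegree_X]
  have hev : ∀ z p w, eval w (sub z p) = Lx w (fun j => z (p.1, j)) p.2 := by
    intro z p w
    have h1 : e w = ∑ k, w k • e (Pi.single k 1) := by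
      have h2 : w = ∑ k, w k • (Pi.single k (1 : ZMod 2) : Fin (m - t) → ZMod 2) := by
        funext j
        simp [Finset.sum_apply, Pi.single_apply]
      conv_lhs => rw [h2]
      rw [map_sum]
      simp only [map_smul]
    rw [hLx, Pi.add_apply, Pi.smul_apply, h1]
    simp only [sub, map_add, eval_C, map_sum, map_mul, eval_X, Finset.sum_apply, Pi.smul_apply,
      smul_eq_mul]
    congr 1
    rw [Finset.mul_sum]
    exact Finset.sum_congr rfl fun k _ => by ring
  let F : Fin s × (Fin r × Fin (t + 1) → ZMod 2) → MvPolynomial (Fin (m - t)) (ZMod 2) := fun q =>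
    bind₁ (sub q.2) (P q.1) - C (eval 0 (P q.1))
  have hFdeg : ∀ q, (F q).totalDegree ≤ D := by
    intro q
    refine (totalDegree_sub _ _).trans ?_
    rw [totalDegree_C]
    exact max_le ((Pool.Agent.H161R3.totalDegree_bind₁_le _ (hsub _) _).trans (hP _))
      (Nat.zero_le _)
  have heval : ∀ w z l, eval w (bind₁ (sub z) (P l)) =
      eval (pt fun i => Lx w fun j => z (i, j)) (P l) := by
    intro w z l
    have h1 := eval₂Hom_bind₁ (RingHom.id (ZMod 2)) w (sub z) (P l)
    have h2 : (fun p => (eval₂Hom (RingHom.id (ZMod 2)) w) (sub z p)) =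
        pt fun i => Lx w fun j => z (i, j) := by
      funext p
      exact hev z p w
    rw [h2] at h1
    exact h1
  have hsum : (∑ q ∈ (univ : Finset (Fin s)) ×ˢ Z, (F q).totalDegree) <
      Fintype.card (Fin (m - t)) := by
    calc (∑ q ∈ (univ : Finset (Fin s)) ×ˢ Z, (F q).totalDegree)
        ≤ ∑ _q ∈ (univ : Finset (Fin s)) ×ˢ Z, D := Finset.sum_le_sum fun q _ => hFdeg q
      _ = s * Z.card * D := by
          rw [Finset.sum_const, Finset.card_product, Finset.card_univ, Fintype.card_fin,
            smul_eq_mul]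
      _ ≤ s * ((2 ^ r - 1) * B (r * t) (D - 1)) * D :=
          Nat.mul_le_mul_right _ (Nat.mul_le_mul_left _ hZ)
      _ < Fintype.card (Fin (m - t)) := by
          rw [Fintype.card_fin]
          have : s * ((2 ^ r - 1) * B (r * t) (D - 1)) * D =
            s * D * ((2 ^ r - 1) * B (r * t) (D - 1)) := by ring
          omega
  have hdvd := char_dvd_card_solutions_of_sum_lt (K := ZMod 2) 2 hsum
  have h0 : ∀ q ∈ (univ : Finset (Fin s)) ×ˢ Z, eval (0 : Fin (m - t) → ZMod 2) (F q) = 0 := by
    intro q _
    simp only [F, map_sub, eval_C]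
    rw [heval]
    have h1 : (pt fun i => Lx 0 fun j => q.2 (i, j)) =
        pt fun i => L fun j => q.2 (i, j.castSucc) := by
      funext p
      simp only [pt, hLx, map_zero, smul_zero, add_zero]
    rw [h1, hc, sub_self]
  obtain ⟨w, hw, hw0⟩ : ∃ w : Fin (m - t) → ZMod 2,
      (∀ q ∈ (univ : Finset (Fin s)) ×ˢ Z, eval w (F q) = 0) ∧ w ≠ 0 := by
    by_contra hcon
    push Not at hcon
    have h1 : Fintype.card { x : Fin (m - t) → ZMod 2 //
        ∀ q ∈ (univ : Finset (Fin s)) ×ˢ Z, eval x (F q) = 0 } = 1 := by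
      rw [Fintype.card_eq_one_iff]
      refine ⟨⟨0, h0⟩, ?_⟩
      rintro ⟨y, hy⟩
      exact Subtype.ext (hcon y hy)
    have h2 : (2 : ℕ) ∣ 1 := by
      rw [← h1]
      convert hdvd
    omega
  refine ⟨Lx w, ?_, ?_⟩
  · rw [injective_iff_map_eq_zero]
    intro a ha
    rw [hLx] at ha
    have h1 : L (fun i => a i.castSucc) = -(a (Fin.last t) • e w) := eq_neg_of_add_eq_zero_left ha
    have h2 : L (fun i => a i.castSucc) ∈ LinearMap.range L ⊓ W := by
      refine ⟨LinearMap.mem_range_self _ _, ?_⟩
      rw [h1]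
      exact W.neg_mem (W.smul_mem _ (heW w))
    rw [hW.inf_eq_bot, Submodule.mem_bot] at h2
    rw [h2] at h1
    have h3 : a (Fin.last t) • e w = 0 := by
      rw [← neg_eq_zero]
      exact h1.symm
    have h4 : e w ≠ 0 := by
      intro h
      exact hw0 (heinj (h.trans (map_zero e).symm))
    have h5 : a (Fin.last t) = 0 := (smul_eq_zero.1 h3).resolve_right h4
    have h6 : (fun i : Fin t => a i.castSucc) = 0 := hL (h2.trans (map_zero L).symm)
    funext i
    refine Fin.lastCases ?_ (fun j => ?_) i
    · exact h5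
    · exact congrFun h6 j
  · intro a l
    -- polynomial in the coordinates
    let sb : Fin r × Fin m → MvPolynomial (Fin r × Fin (t + 1)) (ZMod 2) := fun p =>
      ∑ k : Fin (t + 1), C (Lx w (Pi.single k 1) p.2) * X (p.1, k)
    have hsb : ∀ p, (sb p).totalDegree ≤ 1 := by
      intro p
      refine totalDegree_finsetSum_le fun k _ => ?_
      refine (totalDegree_mul _ _).trans ?_
      rw [totalDegree_C, totalDegree_X]
    have hR : ∀ x : Fin r × Fin (t + 1) → ZMod 2, eval x (bind₁ sb (P l)) =
        eval (pt fun i => Lx w fun j => x (i, j)) (P l) := by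
      intro x
      have h1 := eval₂Hom_bind₁ (RingHom.id (ZMod 2)) x sb (P l)
      have h2 : (fun p => (eval₂Hom (RingHom.id (ZMod 2)) x) (sb p)) =
          pt fun i => Lx w fun j => x (i, j) := by
        funext p
        change eval x (sb p) = Lx w (fun j => x (p.1, j)) p.2
        have h3 : (fun j => x (p.1, j)) = ∑ k, x (p.1, k) • (Pi.single k (1 : ZMod 2) :
            Fin (t + 1) → ZMod 2) := by
          funext j
          simp [Finset.sum_apply, Pi.single_apply]
        rw [h3, map_sum]
        simp only [map_smul, map_sum, map_mul, eval_C, eval_X, Finset.sum_apply,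
          Pi.smul_apply, smul_eq_mul]
        exact Finset.sum_congr rfl fun k _ => mul_comm _ _
      rw [h2] at h1
      exact h1
    have hdeg : (bind₁ sb (P l)).totalDegree ≤ D :=
      (Pool.Agent.H161R3.totalDegree_bind₁_le _ hsb _).trans (hP l)
    have hfin := const_of_low (bind₁ sb (P l)) D hdeg (eval 0 (P l)) (by
      intro x hx
      rw [hR]
      by_cases hlast : ∃ i : Fin r, x (i, Fin.last t) ≠ 0
      · have h1 := hw (l, x) (by
          rw [Finset.mem_product]
          exact ⟨mem_univ _, mem_filter.2 ⟨mem_univ _, hx, hlast⟩⟩)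
        simp only [F, map_sub, eval_C] at h1
        rw [heval] at h1
        exact sub_eq_zero.1 h1
      · push Not at hlast
        have h1 : (pt fun i => Lx w fun j => x (i, j)) =
            pt fun i => L fun j => x (i, j.castSucc) := by
          funext p
          simp only [pt, hLx, hlast, zero_smul, add_zero]
        rw [h1, hc]) (fun p => a p.1 p.2)
    rw [hR] at hfin
    exact hfin

/-- **Subspaces on whose powers low degree polynomials are constant.** -/
theorem exists_subspace (r m s D : ℕ) (hD : 1 ≤ D)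
    (P : Fin s → MvPolynomial (Fin r × Fin m) (ZMod 2)) (hP : ∀ l, (P l).totalDegree ≤ D) :
    ∀ t : ℕ, s * D * ((2 ^ r - 1) * B (r * t) (D - 1)) + t < m →
    ∃ L : (Fin (t + 1) → ZMod 2) →ₗ[ZMod 2] (Fin m → ZMod 2), Function.Injective L ∧
      ∀ (a : Fin r → Fin (t + 1) → ZMod 2) l, eval (pt fun i => L (a i)) (P l) =
        eval 0 (P l) := by
  intro t
  induction t with
  | zero =>
    intro hm
    refine step r m s D 0 hD P hP hm 0 (fun _ _ _ => Subsingleton.elim _ _) ?_
    intro a l
    congr 1
  | succ t ih =>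
    intro hm
    obtain ⟨L, hL, hc⟩ := ih (by
      refine lt_of_le_of_lt ?_ hm
      refine Nat.add_le_add ?_ (Nat.le_succ t)
      exact Nat.mul_le_mul_left _ (Nat.mul_le_mul_left _ (B_mono (Nat.mul_le_mul_left _
        (Nat.le_succ t)))))
    exact step r m s D (t + 1) hD P hP hm L hL hc

end Pool.Agent.R558.LowDeg
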