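import Mathlib
import Pool.Agent.H161R3.Lower
import Pool.Agent.R558.LowDeg.Rank
import Pool.Agent.R558.LowDeg.Step

/-!
# Low degree colourings without large homogeneous sets
-/

set_option autoImplicit false

open MvPolynomial Finset

namespace Pool.Agent.R558.LowDeg

open Pool.Agent.H161R3 (polyFun fiber_card)

/-- an enumeration of an `r`-set of points -/
noncomputable def en {m : ℕ} (r : ℕ) (A : Finset (Fin m → ZMod 2)) : Fin r → Fin m → ZMod 2 :=
  if h : A.card = r then fun i => ((A.equivFinOfCardEq h).symm i).1 else fun _ => 0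

theorem en_mem {m r : ℕ} {A : Finset (Fin m → ZMod 2)} (h : A.card = r) (i : Fin r) :
    en r A i ∈ A := by
  unfold en
  rw [dif_pos h]
  exact ((A.equivFinOfCardEq h).symm i).2

theorem en_inj {m r : ℕ} {A : Finset (Fin m → ZMod 2)} (h : A.card = r) :
    Function.Injective (en r A) := by
  unfold en
  rw [dif_pos h]
  intro i j hij
  exact (A.equivFinOfCardEq h).symm.injective (Subtype.ext hij)

theorem en_image {m r : ℕ} {A : Finset (Fin m → ZMod 2)} (h : A.card = r) :
    Finset.univ.image (en r A) = A := by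
  apply Finset.eq_of_subset_of_card_le
  · intro x hx
    obtain ⟨i, -, rfl⟩ := Finset.mem_image.1 hx
    exact en_mem h i
  · rw [Finset.card_image_of_injective _ (en_inj h), Finset.card_univ, Fintype.card_fin, h]

/-- the points of `Y` are separated from each other by polynomials of degree at most `d` -/
def Separated {m : ℕ} (d : ℕ) (Y : Finset (Fin m → ZMod 2)) : Prop :=
  ∀ x ∈ Y, ∃ Q : MvPolynomial (Fin m) (ZMod 2), Q.totalDegree ≤ d ∧
      eval x Q = 1 ∧ ∀ y ∈ Y.erase x, eval y Q = 0

/-- restriction of a polynomial function to the `r`-subsets of `Y` -/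
noncomputable def restr' (r m D : ℕ) (Y : Finset (Fin m → ZMod 2)) :
    polyFun r m D →ₗ[ZMod 2] ({A // A ∈ Y.powersetCard r} → ZMod 2) where
  toFun F A := F.1 (pt (en r A.1))
  map_add' _ _ := rfl
  map_smul' _ _ := rfl

theorem restr_surj' (r m d : ℕ) (Y : Finset (Fin m → ZMod 2)) (hY : Separated d Y) :
    Function.Surjective (restr' r m (r * d) Y) := by
  classical
  have hex : ∀ A0 : {A // A ∈ Y.powersetCard r}, ∃ F : polyFun r m (r * d),
      restr' r m (r * d) Y F = Pi.single A0 1 := by
    intro A0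
    have hA0 := Finset.mem_powersetCard.1 A0.2
    have hq : ∀ i : Fin r, ∃ Q : MvPolynomial (Fin m) (ZMod 2), Q.totalDegree ≤ d ∧
        eval (en r A0.1 i) Q = 1 ∧ ∀ b ∈ Y.erase (en r A0.1 i), eval b Q = 0 :=
      fun i => hY _ (hA0.1 (en_mem hA0.2 i))
    choose Q hQ1 hQ2 hQ3 using hq
    let P : MvPolynomial (Fin r × Fin m) (ZMod 2) := ∏ i, rename (fun j => (i, j)) (Q i)
    have hPeval : ∀ x, eval x P = ∏ i, eval (fun j => x (i, j)) (Q i) := by
      intro x
      rw [map_prod]
      refine Finset.prod_congr rfl fun i _ => ?_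
      rw [eval_rename]
      rfl
    have hPdeg : P.totalDegree ≤ r * d := by
      refine (totalDegree_finsetProd _ _).trans ?_
      calc ∑ i : Fin r, (rename (fun j => (i, j)) (Q i)).totalDegree ≤ ∑ _i : Fin r, d :=
            Finset.sum_le_sum fun i _ => (totalDegree_rename_le _ _).trans (hQ1 i)
        _ = r * d := by simp
    refine ⟨⟨fun x => ∑ π : Equiv.Perm (Fin r), eval (fun z => x (π z.1, z.2)) P,
      ⟨∑ π : Equiv.Perm (Fin r), rename (fun z => (π z.1, z.2)) P, ?_, ?_⟩, ?_⟩, ?_⟩
    · exact totalDegree_finsetSum_le fun π _ => (totalDegree_rename_le _ _).trans hPdeg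
    · intro x
      rw [map_sum]
      refine Finset.sum_congr rfl fun π _ => ?_
      rw [eval_rename]
      rfl
    · intro π x
      exact Fintype.sum_equiv (Equiv.mulLeft π) _ _ fun σ => rfl
    · funext A
      change ∑ π : Equiv.Perm (Fin r), eval _ P = _
      have hAp := Finset.mem_powersetCard.1 A.2
      have hterm : ∀ π : Equiv.Perm (Fin r), (en r A.1 ∘ π ≠ en r A0.1) →
          eval (fun z : Fin r × Fin m => pt (en r A.1) (π z.1, z.2)) P = 0 := by
        intro π hne
        rw [hPeval]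
        obtain ⟨i, hi⟩ := Function.ne_iff.1 hne
        refine Finset.prod_eq_zero (Finset.mem_univ i) ?_
        exact hQ3 i _ (Finset.mem_erase.2 ⟨hi, hAp.1 (en_mem hAp.2 (π i))⟩)
      by_cases hA : A = A0
      · subst hA
        rw [Pi.single_eq_same, Finset.sum_eq_single (1 : Equiv.Perm (Fin r))]
        · rw [hPeval]
          exact Finset.prod_eq_one fun i _ => hQ2 i
        · intro π _ hπ
          apply hterm
          intro h
          apply hπ
          ext i
          have := (en_inj hAp.2) (congrFun h i)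
          rw [this]
          rfl
        · intro h; exact absurd (Finset.mem_univ _) h
      · rw [Pi.single_eq_of_ne hA]
        refine Finset.sum_eq_zero fun π _ => hterm π ?_
        intro h
        apply hA
        apply Subtype.ext
        rw [← en_image hAp.2, ← en_image hA0.2, ← h]
        ext x
        simp only [Finset.mem_image, Finset.mem_univ, true_and, Function.comp]
        constructor
        · rintro ⟨a, rfl⟩
          exact ⟨π.symm a, by rw [Equiv.apply_symm_apply]⟩
        · rintro ⟨a, rfl⟩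
          exact ⟨π a, rfl⟩
  intro y
  choose F hF using hex
  refine ⟨∑ A0, y A0 • F A0, ?_⟩
  rw [map_sum]
  simp only [map_smul, hF]
  funext A
  simp [Finset.sum_apply, Pi.single_apply]

/-- A symmetric polynomial of degree `≤ r * d` without homogeneous separated sets of size `S`. -/
theorem lower_sep (r d S m : ℕ) (hS : 3 ≤ S) (hm : m * S ≤ S.choose r) :
    ∃ P : MvPolynomial (Fin r × Fin m) (ZMod 2), P.totalDegree ≤ r * d ∧
      (∀ (π : Equiv.Perm (Fin r)) x, eval (fun z => x (π z.1, z.2)) P = eval x P) ∧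
      ∀ Y : Finset (Fin m → ZMod 2), Y.card = S → Separated d Y →
        ∃ A ⊆ Y, ∃ B ⊆ Y, A.card = r ∧ B.card = r ∧
          eval (pt (en r A)) P ≠ eval (pt (en r B)) P := by
  classical
  by_contra hno
  push Not at hno
  have : Fintype (polyFun r m (r * d)) := Fintype.ofFinite _
  set 𝒮 := ((univ : Finset (Fin m → ZMod 2)).powersetCard S).filter (Separated d) with h𝒮
  let bad : Finset (Fin m → ZMod 2) → ZMod 2 → Finset (polyFun r m (r * d)) := fun Y e =>
    Finset.univ.filter (fun F => restr' r m (r * d) Y F = fun _ => e)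
  have hbad : ∀ Y ∈ 𝒮, ∀ e, 2 ^ (S.choose r) * (bad Y e).card =
      Fintype.card (polyFun r m (r * d)) := by
    intro Y hY e
    obtain ⟨hY1, hY2⟩ := Finset.mem_filter.1 hY
    have hY' := Finset.mem_powersetCard.1 hY1
    have h1 := fiber_card (restr' r m (r * d) Y) (restr_surj' r m d Y hY2) (fun _ => e)
    rw [Fintype.card_fun, ZMod.card, Fintype.card_coe, Finset.card_powersetCard, hY'.2] at h1
    exact h1
  have hcover : (Finset.univ : Finset (polyFun r m (r * d))) ⊆
      𝒮.biUnion (fun Y => Finset.univ.biUnion (fun e => bad Y e)) := by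
    intro F _
    obtain ⟨⟨P, hP, hP2⟩, hP3⟩ := F.2
    obtain ⟨Y, hY1, hY2, hY3⟩ := hno P hP (fun π x => by rw [← hP2, ← hP2]; exact hP3 π x)
    refine Finset.mem_biUnion.2 ⟨Y, Finset.mem_filter.2 ⟨Finset.mem_powersetCard.2
      ⟨Finset.subset_univ _, hY1⟩, hY2⟩, ?_⟩
    have hconst : ∃ e : ZMod 2, ∀ A : {A // A ∈ Y.powersetCard r},
        restr' r m (r * d) Y F A = e := by
      by_cases hne : (Y.powersetCard r).Nonempty
      · obtain ⟨A0, hA0⟩ := hne
        refine ⟨restr' r m (r * d) Y F ⟨A0, hA0⟩, fun A => ?_⟩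
        have hA := Finset.mem_powersetCard.1 A.2
        have hA0' := Finset.mem_powersetCard.1 hA0
        have h5 := hY3 A.1 hA.1 A0 hA0'.1 hA.2 hA0'.2
        change F.1 _ = F.1 _
        rw [hP2, hP2]
        exact h5
      · exact ⟨0, fun A => absurd ⟨A.1, A.2⟩ hne⟩
    obtain ⟨e, he⟩ := hconst
    exact Finset.mem_biUnion.2 ⟨e, Finset.mem_univ _,
      Finset.mem_filter.2 ⟨Finset.mem_univ _, funext he⟩⟩
  have hle := Finset.card_le_card hcover
  rw [Finset.card_univ] at hle
  have hle2 : 2 ^ (S.choose r) * Fintype.card (polyFun r m (r * d)) ≤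
      𝒮.card * 2 * Fintype.card (polyFun r m (r * d)) := by
    calc 2 ^ (S.choose r) * Fintype.card (polyFun r m (r * d))
        ≤ 2 ^ (S.choose r) * ∑ Y ∈ 𝒮, ∑ e : ZMod 2, (bad Y e).card := by
          refine Nat.mul_le_mul_left _ (hle.trans ?_)
          refine Finset.card_biUnion_le.trans (Finset.sum_le_sum fun Y _ => ?_)
          exact Finset.card_biUnion_le
      _ = ∑ Y ∈ 𝒮, ∑ e : ZMod 2, 2 ^ (S.choose r) * (bad Y e).card := by
          rw [Finset.mul_sum]
          refine Finset.sum_congr rfl fun Y _ => ?_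
          rw [Finset.mul_sum]
      _ = ∑ Y ∈ 𝒮, ∑ e : ZMod 2, Fintype.card (polyFun r m (r * d)) :=
          Finset.sum_congr rfl fun Y hY => Finset.sum_congr rfl fun e _ => hbad Y hY e
      _ = 𝒮.card * 2 * Fintype.card (polyFun r m (r * d)) := by
          simp [Finset.sum_const, Finset.card_univ, ZMod.card, mul_assoc]
  have hpos : 0 < Fintype.card (polyFun r m (r * d)) := Fintype.card_pos
  have h6 : 2 ^ (S.choose r) ≤ 𝒮.card * 2 := Nat.le_of_mul_le_mul_right hle2 hpos
  have h𝒮card : 𝒮.card ≤ (2 ^ m).choose S := by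
    refine (Finset.card_filter_le _ _).trans ?_
    rw [Finset.card_powersetCard, Finset.card_univ]
    simp
  have h7 : S.factorial * (2 ^ m).choose S ≤ 2 ^ (S.choose r) := by
    rw [← Nat.descFactorial_eq_factorial_mul_choose]
    refine (Nat.descFactorial_le_pow _ _).trans ?_
    rw [← pow_mul]
    exact Nat.pow_le_pow_right (by norm_num) hm
  have h8 : 6 ≤ S.factorial := by
    have : Nat.factorial 3 ≤ S.factorial := Nat.factorial_le hS
    simpa [Nat.factorial] using this
  have h9 : 6 * (2 ^ m).choose S ≤ 2 ^ (S.choose r) := (Nat.mul_le_mul_right _ h8).trans h7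
  have h10 : 0 < 2 ^ (S.choose r) := by positivity
  omega

/-- **Lower bound.** -/
theorem lower (r d S m k : ℕ) (hS : 3 ≤ S) (hm : m * S ≤ S.choose r) (hk : S ≤ G (d + 1) k) :
    ∃ P : MvPolynomial (Fin r × Fin m) (ZMod 2), P.totalDegree ≤ r * d ∧
      (∀ (π : Equiv.Perm (Fin r)) x, eval (fun z => x (π z.1, z.2)) P = eval x P) ∧
      ∀ X : Finset (Fin m → ZMod 2), k ≤ X.card →
        ∃ A ⊆ X, ∃ B ⊆ X, A.card = r ∧ B.card = r ∧
          eval (pt (en r A)) P ≠ eval (pt (en r B)) P := by
  obtain ⟨P, hP, hsym, hY⟩ := lower_sep r d S m hS hm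
  refine ⟨P, hP, hsym, ?_⟩
  intro X hX
  obtain ⟨Y, hYX, hYS, hYsep⟩ := exists_sep m d X S (hk.trans (G_mono _ hX))
  obtain ⟨A, hA, B, hB, h1, h2, h3⟩ := hY Y hYS hYsep
  exact ⟨A, hA.trans hYX, B, hB.trans hYX, h1, h2, h3⟩

end Pool.Agent.R558.LowDeg
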