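import Mathlib
import Pool.Agent.R558.LowDeg.Lower

/-!
# Colourings given by symmetric polynomials
-/

set_option autoImplicit false

open MvPolynomial Finset

namespace Pool.Agent.R558.LowDeg

/-- **Lower bound, colouring form.** -/
theorem lower_col (r d S m k : ℕ) (hS : 3 ≤ S) (hm : m * S ≤ S.choose r) (hk : S ≤ G (d + 1) k) :
    ∃ (c : Finset (Fin m → ZMod 2) → ZMod 2) (P : MvPolynomial (Fin r × Fin m) (ZMod 2)),
      P.totalDegree ≤ r * d ∧
      (∀ v : Fin r → Fin m → ZMod 2, Function.Injective v →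
        c (Finset.univ.image v) = eval (pt v) P) ∧
      ∀ X : Finset (Fin m → ZMod 2), X.card = k →
        ¬ ∀ A ⊆ X, ∀ A' ⊆ X, A.card = r → A'.card = r → c A = c A' := by
  classical
  obtain ⟨P, hP, hsym, hX⟩ := lower r d S m k hS hm hk
  refine ⟨fun A => eval (pt (en r A)) P, P, hP, ?_, ?_⟩
  · intro v hv
    have hcard : (Finset.univ.image v).card = r := by
      rw [Finset.card_image_of_injective _ hv, Finset.card_univ, Fintype.card_fin]
    have hperm : ∀ i : Fin r, ∃ j : Fin r, v j = en r (Finset.univ.image v) i := by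
      intro i
      obtain ⟨j, -, hj⟩ := Finset.mem_image.1 (en_mem hcard i)
      exact ⟨j, hj⟩
    choose τ hτ using hperm
    have hτinj : Function.Injective τ := by
      intro a b hab
      apply en_inj hcard
      rw [← hτ a, ← hτ b, hab]
    let π : Equiv.Perm (Fin r) := Equiv.ofBijective τ (Finite.injective_iff_bijective.1 hτinj)
    have h1 := hsym π (pt v)
    change eval (pt (en r (Finset.univ.image v))) P = eval (pt v) P
    rw [← h1]
    congr 1
    congr 1
    funext z
    change en r (Finset.univ.image v) z.1 z.2 = v (τ z.1) z.2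
    rw [← hτ z.1]
  · intro X hXk hhom
    obtain ⟨A, hA, A', hA', h1, h2, hne⟩ := hX X hXk.ge
    exact hne (hhom A hA A' hA' h1 h2)

theorem two_pow_le_G {d k : ℕ} (h : 2 ^ d ≤ k) : 2 ^ d ≤ G (d + 1) k := by
  refine le_trans ?_ (G_mono (d + 1) h)
  rw [G_pow, Nat.sum_range_choose]

theorem choose_two_le {S r : ℕ} (hr : 2 ≤ r) (hS : 2 * r ≤ S) : S.choose 2 ≤ S.choose r := by
  induction r, hr using Nat.le_induction with
  | base => exact le_rfl
  | succ r hr ih =>
    exact (ih (by omega)).trans (Nat.choose_le_succ_of_lt_half_left (by omega))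

theorem half_mul_le {S r m : ℕ} (hr : 2 ≤ r) (hS : 2 * r ≤ S) (hm : 2 * m + 1 ≤ S) :
    m * S ≤ S.choose r := by
  refine le_trans ?_ (choose_two_le hr hS)
  rw [Nat.choose_two_right, Nat.le_div_iff_mul_le (by norm_num)]
  calc m * S * 2 = S * (2 * m) := by ring
    _ ≤ S * (S - 1) := Nat.mul_le_mul_left _ (by omega)

end Pool.Agent.R558.LowDeg
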