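import Mathlib
import Pool.Agent.R558.LowDeg.LowerSym

/-!
# Estimates for graphs
-/

set_option autoImplicit false

open Finset

namespace Pool.Agent.R558.LowDeg

theorem B_le_real' (N d : ℕ) (A : ℝ) (hA : 1 ≤ A) :
    (B N d : ℝ) ≤ A ^ d * (1 + 1 / A) ^ N := by
  have hA0 : 0 < A := by linarith
  have h1 : (1 + 1 / A) ^ N = ∑ j ∈ range (N + 1), (1 / A) ^ j * (N.choose j : ℝ) := by
    rw [add_comm, add_pow]
    refine Finset.sum_congr rfl fun j _ => ?_
    rw [one_pow, mul_one]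
  have h2 : (B N d : ℝ) ≤ ∑ j ∈ range (d + 1), A ^ d * ((1 / A) ^ j * (N.choose j : ℝ)) := by
    rw [B]
    push_cast
    refine Finset.sum_le_sum fun j hj => ?_
    rw [mem_range] at hj
    have h3 : (1 : ℝ) ≤ A ^ d * (1 / A) ^ j := by
      rw [one_div, inv_pow, ← div_eq_mul_inv, le_div_iff₀ (by positivity), one_mul]
      exact pow_le_pow_right₀ hA (by omega)
    calc (N.choose j : ℝ) = 1 * N.choose j := (one_mul _).symm
      _ ≤ (A ^ d * (1 / A) ^ j) * N.choose j :=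
          mul_le_mul_of_nonneg_right h3 (Nat.cast_nonneg _)
      _ = _ := by ring
  refine h2.trans ?_
  rw [← Finset.mul_sum]
  refine mul_le_mul_of_nonneg_left ?_ (by positivity)
  rw [h1]
  by_cases hd : d ≤ N
  · refine Finset.sum_le_sum_of_subset_of_nonneg ?_ fun j _ _ => by positivity
    intro j hj
    rw [mem_range] at hj ⊢
    omega
  · refine le_of_eq (Finset.sum_subset ?_ ?_).symm
    · intro j hj
      rw [mem_range] at hj ⊢
      omega
    · intro j _ hj
      rw [mem_range] at hj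
      rw [Nat.choose_eq_zero_of_lt (by omega)]
      simp

/-- graphs, degree at most `(log₂ k) / 5` -/
theorem quant_graph (s : ℕ) : ∃ t₀ : ℕ, ∀ t ≥ t₀, ∀ D : ℕ, 5 * D ≤ t + 1 → ∀ m : ℕ,
    ((2 : ℝ) ^ t) ^ (19 / 20 : ℝ) ≤ m → s * D * ((2 ^ 2 - 1) * B (2 * t) (D - 1)) + t < m := by
  set e : ℝ := (9 : ℝ) ^ (1 / 5 : ℝ) with he
  set a : ℝ := e * (100 / 81) with ha
  set b : ℝ := (2 : ℝ) ^ (19 / 20 : ℝ) with hb
  have he0 : 0 < e := Real.rpow_pos_of_pos (by norm_num) _
  have he1 : 1 ≤ e := Real.one_le_rpow (by norm_num) (by norm_num)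
  have ha0 : 0 < a := by positivity
  have ha1 : 1 ≤ a := by
    rw [ha]
    nlinarith
  have hb0 : 0 < b := Real.rpow_pos_of_pos (by norm_num) _
  have he5 : e ^ 5 = 9 := by
    rw [he, ← Real.rpow_natCast, ← Real.rpow_mul (by norm_num)]
    norm_num
  have hb20 : b ^ 20 = 2 ^ 19 := by
    rw [hb, ← Real.rpow_natCast, ← Real.rpow_mul (by norm_num)]
    norm_num
  have hab : a < b := by
    refine lt_of_pow_lt_pow_left₀ 20 hb0.le ?_
    rw [hb20, ha, mul_pow]
    have : e ^ 20 = 9 ^ 4 := by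
      rw [← he5]
      ring
    rw [this]
    norm_num
  have hr : |a / b| < 1 := by
    rw [abs_of_pos (by positivity), div_lt_one hb0]
    exact hab
  have h1 := tendsto_pow_const_mul_const_pow_of_abs_lt_one 1 hr
  have h0 := tendsto_pow_const_mul_const_pow_of_abs_lt_one 0 hr
  have h2 := (h1.add h0).const_mul (3 * s * e + 1)
  rw [add_zero, mul_zero] at h2
  have h3 := h2.eventually (gt_mem_nhds (show (0 : ℝ) < 1 by norm_num))
  obtain ⟨t₀, ht₀⟩ := Filter.eventually_atTop.1 h3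
  refine ⟨t₀, ?_⟩
  intro t ht D hD m hm
  have h4 := ht₀ t ht
  have h5 : (3 * s * e + 1) * ((t + 1) * a ^ t) < b ^ t := by
    have hbt : 0 < b ^ t := by positivity
    have h6 : (3 * s * e + 1) * ((t : ℝ) ^ 1 * (a / b) ^ t + (t : ℝ) ^ 0 * (a / b) ^ t) =
        (3 * s * e + 1) * ((t + 1) * a ^ t) / b ^ t := by
      rw [div_pow]
      field_simp
    rw [h6, div_lt_one hbt] at h4
    exact h4
  have hB : (B (2 * t) (D - 1) : ℝ) ≤ e * a ^ t := by
    refine (B_le_real' (2 * t) (D - 1) 9 (by norm_num)).trans ?_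
    have h7 : (9 : ℝ) ^ (D - 1) ≤ e ^ (t + 1) := by
      calc (9 : ℝ) ^ (D - 1) ≤ 9 ^ D := pow_le_pow_right₀ (by norm_num) (Nat.sub_le _ _)
        _ = e ^ (5 * D) := by rw [pow_mul, he5]
        _ ≤ e ^ (t + 1) := pow_le_pow_right₀ he1 hD
    have h8 : (1 + 1 / (9 : ℝ)) ^ (2 * t) = (100 / 81) ^ t := by
      rw [pow_mul]
      norm_num
    rw [h8]
    calc (9 : ℝ) ^ (D - 1) * (100 / 81) ^ t ≤ e ^ (t + 1) * (100 / 81) ^ t :=
          mul_le_mul_of_nonneg_right h7 (by positivity)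
      _ = e * a ^ t := by
          rw [ha, mul_pow]
          ring
  have hbm : b ^ t ≤ m := by
    refine le_trans (le_of_eq ?_) hm
    rw [hb, ← Real.rpow_natCast, ← Real.rpow_mul (by norm_num), ← Real.rpow_natCast,
      ← Real.rpow_mul (by norm_num), mul_comm]
  have hreal : ((s * D * ((2 ^ 2 - 1) * B (2 * t) (D - 1)) + t : ℕ) : ℝ) < m := by
    have hDt : (D : ℝ) ≤ t + 1 := by
      have : D ≤ t + 1 := by omega
      exact_mod_cast this
    have hat : 1 ≤ a ^ t := one_le_pow₀ ha1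
    have ht0 : (0 : ℝ) ≤ t := Nat.cast_nonneg t
    calc ((s * D * ((2 ^ 2 - 1) * B (2 * t) (D - 1)) + t : ℕ) : ℝ)
        = s * D * (3 * (B (2 * t) (D - 1) : ℝ)) + t := by push_cast; norm_num
      _ ≤ s * (t + 1) * (3 * (e * a ^ t)) + (t + 1) * a ^ t := by
          refine add_le_add ?_ ?_
          · refine mul_le_mul ?_ ?_ (by positivity) (by positivity)
            · exact mul_le_mul_of_nonneg_left hDt (Nat.cast_nonneg _)
            · exact mul_le_mul_of_nonneg_left hB (by norm_num)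
          · nlinarith
      _ = (3 * s * e + 1) * ((t + 1) * a ^ t) := by ring
      _ < b ^ t := h5
      _ ≤ m := hbm
  exact_mod_cast hreal

/-- second moment of the binomial distribution -/
theorem second_moment (N : ℕ) :
    ∑ j ∈ range (N + 1), ((2 * j - N : ℤ)) ^ 2 * (N.choose j : ℤ) = N * 2 ^ N := by
  have key : ∀ N : ℕ, ∀ c : ℤ, ∑ j ∈ range (N + 1), ((2 * j - N + c : ℤ)) ^ 2 * (N.choose j : ℤ) =
      (N + c ^ 2) * 2 ^ N := by
    intro N
    induction N with
    | zero =>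
      intro c
      simp
    | succ N ih =>
      intro c
      have h1 : ∀ j : ℕ, ((2 * ((j : ℕ) : ℤ) - ((N + 1 : ℕ) : ℤ) + c)) ^ 2 *
          ((N + 1).choose j : ℤ) = ((2 * (j : ℤ) - N + (c - 1))) ^ 2 * ((N + 1).choose j : ℤ) := by
        intro j
        push_cast
        ring
      rw [Finset.sum_congr rfl fun j _ => h1 j, Finset.sum_range_succ']
      have h2 : ∀ j : ℕ, ((2 * ((j + 1 : ℕ) : ℤ) - N + (c - 1))) ^ 2 *
          ((N + 1).choose (j + 1) : ℤ) =
          (2 * (j : ℤ) - N + (c + 1)) ^ 2 * (N.choose j : ℤ) +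
          (2 * ((j + 1 : ℕ) : ℤ) - N + (c - 1)) ^ 2 * (N.choose (j + 1) : ℤ) := by
        intro j
        rw [Nat.choose_succ_succ]
        push_cast
        ring
      rw [Finset.sum_congr rfl fun j _ => h2 j, Finset.sum_add_distrib, ih (c + 1)]
      have h3 : ∑ j ∈ range (N + 1), (2 * ((j + 1 : ℕ) : ℤ) - N + (c - 1)) ^ 2 *
          (N.choose (j + 1) : ℤ) + (2 * ((0 : ℕ) : ℤ) - N + (c - 1)) ^ 2 * ((N + 1).choose 0 : ℤ) =
          (N + (c - 1) ^ 2) * 2 ^ N := by
        rw [← ih (c - 1)]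
        rw [Finset.sum_range_succ, Nat.choose_succ_self]
        rw [Finset.sum_range_succ' _ N]
        simp
      have h4 : ((N + 1 : ℕ) : ℤ) = N + 1 := by push_cast; ring
      rw [add_assoc, h3, h4]
      ring
  have := key N 0
  simpa using this

/-- few integers below `2 ^ N` have more than `d` binary ones -/
theorem tail_le (N d : ℕ) (hd : N < 2 * (d + 1)) :
    ((2 ^ N : ℝ) - B N d) * (2 * (d + 1) - N) ^ 2 ≤ N * 2 ^ N := by
  have h1 := second_moment N
  have h1' : ∑ j ∈ range (N + 1), ((2 * j - N : ℝ)) ^ 2 * (N.choose j : ℝ) = N * 2 ^ N := by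
    exact_mod_cast h1
  have hsum : ∑ j ∈ range (N + 1), (N.choose j : ℝ) = 2 ^ N := by
    exact_mod_cast Nat.sum_range_choose N
  have hdN : (N : ℝ) ≤ 2 * (d + 1) := by exact_mod_cast hd.le
  by_cases hdn : N ≤ d
  · have h2 : (2 ^ N : ℝ) - B N d ≤ 0 := by
      have h3 : (2 ^ N : ℝ) ≤ B N d := by
        rw [← hsum, B]
        push_cast
        refine Finset.sum_le_sum_of_subset_of_nonneg (Finset.range_mono (by omega))
          fun _ _ _ => Nat.cast_nonneg _
      linarith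
    have h3 : (0 : ℝ) ≤ N * 2 ^ N := by positivity
    nlinarith [sq_nonneg ((2 * (d + 1) - N : ℝ))]
  · have hsplit : ∀ f : ℕ → ℝ, ∑ j ∈ range (N + 1), f j =
        ∑ j ∈ range (d + 1), f j + ∑ j ∈ Ico (d + 1) (N + 1), f j := by
      intro f
      rw [Finset.sum_range_add_sum_Ico _ (by omega)]
    have h2 : (2 ^ N : ℝ) - B N d = ∑ j ∈ Ico (d + 1) (N + 1), (N.choose j : ℝ) := by
      rw [← hsum, hsplit, B]
      push_cast
      ring
    rw [h2, Finset.sum_mul, ← h1', hsplit]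
    have h3 : 0 ≤ ∑ j ∈ range (d + 1), ((2 * j - N : ℝ)) ^ 2 * (N.choose j : ℝ) :=
      Finset.sum_nonneg fun j _ => by positivity
    have h4 : ∑ j ∈ Ico (d + 1) (N + 1), (N.choose j : ℝ) * (2 * (d + 1) - N) ^ 2 ≤
        ∑ j ∈ Ico (d + 1) (N + 1), ((2 * j - N : ℝ)) ^ 2 * (N.choose j : ℝ) := by
      refine Finset.sum_le_sum fun j hj => ?_
      rw [mem_Ico] at hj
      rw [mul_comm]
      refine mul_le_mul_of_nonneg_right ?_ (Nat.cast_nonneg _)
      refine pow_le_pow_left₀ (by linarith) ?_ 2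
      have : ((d + 1 : ℕ) : ℝ) ≤ j := by exact_mod_cast hj.1
      push_cast at this
      linarith
    linarith

theorem G_add_le (d a b : ℕ) : G d (a + b) ≤ G d a + b := by
  induction b with
  | zero => simp
  | succ b ih =>
    rw [← add_assoc, G_succ]
    split_ifs <;> omega

theorem half_le_B (n : ℕ) : 2 ^ n ≤ 2 * B n (n / 2) := by
  rw [← Nat.sum_range_choose, B]
  have h1 : ∑ j ∈ range (n + 1), n.choose j =
      ∑ j ∈ range (n / 2 + 1), n.choose j + ∑ j ∈ Ico (n / 2 + 1) (n + 1), n.choose j := by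
    rw [Finset.sum_range_add_sum_Ico _ (by omega)]
  have h2 : ∑ j ∈ Ico (n / 2 + 1) (n + 1), n.choose j ≤ ∑ j ∈ range (n / 2 + 1), n.choose j := by
    have h3 : ∑ j ∈ Ico (n / 2 + 1) (n + 1), n.choose j =
        ∑ j ∈ range (n - n / 2), n.choose j := by
      refine Finset.sum_nbij' (fun j => n - j) (fun j => n - j) ?_ ?_ ?_ ?_ ?_
      · intro j hj
        rw [mem_Ico] at hj
        rw [mem_range]
        omega
      · intro j hj
        rw [mem_range] at hj
        rw [mem_Ico]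
        omega
      · intro j hj
        rw [mem_Ico] at hj
        show n - (n - j) = j
        omega
      · intro j hj
        rw [mem_range] at hj
        show n - (n - j) = j
        omega
      · intro j hj
        rw [mem_Ico] at hj
        exact (Nat.choose_symm (by omega)).symm
    rw [h3]
    refine Finset.sum_le_sum_of_subset_of_nonneg (Finset.range_mono (by omega))
      fun _ _ _ => Nat.zero_le _
  omega

/-- graphs, degree at least `log₂ k` -/
theorem graph_mid (k D m : ℕ) (hk : 36 ≤ k) (hD : Nat.log 2 k ≤ D) (hm : 9 * m ≤ k) :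
    ∃ S, 3 ≤ S ∧ m * S ≤ S.choose 2 ∧ S ≤ G (D / 2 + 1) k := by
  obtain ⟨n, hn⟩ : ∃ n, n = Nat.log 2 k := ⟨_, rfl⟩
  have h1 : 2 ^ n ≤ k := hn ▸ Nat.pow_log_le_self 2 (by omega)
  have h2 : k < 2 * 2 ^ n := by
    have := Nat.lt_pow_succ_log_self (show 1 < 2 by norm_num) k
    rw [← hn, Nat.succ_eq_add_one, pow_succ] at this
    omega
  have h3 := half_le_B n
  have h4 : B n (n / 2) ≤ G (D / 2 + 1) k := by
    rw [← G_pow']
    refine (G_mono _ h1).trans ?_
    refine Finset.sum_le_sum fun x _ => ?_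
    split_ifs <;> omega
  refine ⟨B n (n / 2), by omega, ?_, h4⟩
  exact half_mul_le le_rfl (by omega) (by omega)

/-- graphs, degree at least `(1 + δ) log₂ k` -/
theorem graph_high (δ ε : ℝ) (hδ : 0 < δ) (hε : 0 < ε) : ∀ᶠ k : ℕ in Filter.atTop, ∀ D : ℕ,
    (1 + δ) * Nat.log 2 k ≤ D → ∀ m : ℕ, (m : ℝ) ≤ (1 / 2 - ε) * k →
    ∃ S, 3 ≤ S ∧ m * S ≤ S.choose 2 ∧ S ≤ G (D / 2 + 1) k := by
  wlog hε2 : ε < 1 / 4 generalizing ε
  · refine (this (1 / 5) (by norm_num) (by norm_num)).mono ?_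
    intro k hk D hD m hm
    refine hk D hD m (hm.trans ?_)
    refine mul_le_mul_of_nonneg_right ?_ (Nat.cast_nonneg _)
    push Not at hε2
    linarith
  obtain ⟨N₀, hN₀⟩ := exists_nat_ge (4 / (ε * δ ^ 2) + 1 / ε + 10)
  filter_upwards [Filter.eventually_ge_atTop (2 ^ N₀)] with k hk
  intro D hD m hm
  have hkpos : 0 < k := lt_of_lt_of_le (by positivity) hk
  obtain ⟨n, hn⟩ : ∃ n, n = Nat.log 2 k := ⟨_, rfl⟩
  rw [← hn] at hD
  have h1 : 2 ^ n ≤ k := hn ▸ Nat.pow_log_le_self 2 (by omega)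
  have h2 : k < 2 ^ (n + 1) := by
    have := Nat.lt_pow_succ_log_self (show 1 < 2 by norm_num) k
    rwa [← hn, Nat.succ_eq_add_one] at this
  have hnN : N₀ ≤ n := by
    rw [hn]
    exact Nat.le_log_of_pow_le (by norm_num) hk
  have hnN' : (N₀ : ℝ) ≤ n := by exact_mod_cast hnN
  have hkn : n < k := lt_of_lt_of_le (Nat.lt_two_pow_self) h1
  have hkn' : (n : ℝ) < k := by exact_mod_cast hkn
  have hp1 : 0 < 4 / (ε * δ ^ 2) := by positivity
  have hp2 : 0 < 1 / ε := by positivity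
  have hn4 : 4 ≤ ε * δ ^ 2 * n := by
    have : 4 / (ε * δ ^ 2) ≤ n := by linarith
    rwa [div_le_iff₀ (by positivity), mul_comm] at this
  have hεk : 1 ≤ ε * k := by
    have : 1 / ε ≤ k := by linarith
    rwa [div_le_iff₀ hε, mul_comm] at this
  have hk10 : (10 : ℝ) ≤ k := by linarith
  have hn10 : (10 : ℝ) ≤ n := by linarith
  set d := D / 2 with hd
  have hd2 : D + 1 ≤ 2 * (d + 1) := by omega
  have hd3 : (D : ℝ) + 1 ≤ 2 * (d + 1) := by exact_mod_cast hd2
  have hx : δ * n ≤ 2 * ((d : ℝ) + 1) - ((n + 1 : ℕ) : ℝ) := by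
    push_cast
    linarith
  have hx0 : 0 < δ * n := by positivity
  have htail := tail_le (n + 1) d (by
    have h3 : ((n + 1 : ℕ) : ℝ) < 2 * ((d : ℝ) + 1) := by linarith
    exact_mod_cast h3)
  have hbound : (2 ^ (n + 1) : ℝ) - B (n + 1) d ≤ ε * k := by
    by_contra hcon
    push Not at hcon
    have hpos : 0 < (2 ^ (n + 1) : ℝ) - B (n + 1) d := by
      have : 0 < ε * k := by positivity
      linarith
    have h3 : ((2 ^ (n + 1) : ℝ) - B (n + 1) d) * (δ * n) ^ 2 ≤ ((n + 1 : ℕ) : ℝ) * 2 ^ (n + 1) :=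
      (mul_le_mul_of_nonneg_left (pow_le_pow_left₀ hx0.le hx 2) hpos.le).trans htail
    have h4 : ε * k * (δ * n) ^ 2 < ((n + 1 : ℕ) : ℝ) * 2 ^ (n + 1) :=
      lt_of_lt_of_le (mul_lt_mul_of_pos_right hcon (by positivity)) h3
    have h5 : (2 : ℝ) ^ (n + 1) ≤ 2 * k := by
      have : (2 : ℝ) ^ n ≤ k := by exact_mod_cast h1
      rw [pow_succ]
      linarith
    have h6 : ((n + 1 : ℕ) : ℝ) * 2 ^ (n + 1) ≤ (2 * n) * (2 * k) := by
      refine mul_le_mul ?_ h5 (by positivity) (by positivity)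
      push_cast
      linarith
    have h7 : ε * k * (δ * n) ^ 2 = (ε * δ ^ 2 * n) * (n * k) := by ring
    have h8 : 4 * (n * k) ≤ (ε * δ ^ 2 * n) * (n * k) :=
      mul_le_mul_of_nonneg_right hn4 (by positivity)
    nlinarith
  have hG : k ≤ G (d + 1) k + (2 ^ (n + 1) - B (n + 1) d) ∨ B (n + 1) d > 2 ^ (n + 1) := by
    by_cases hB : B (n + 1) d ≤ 2 ^ (n + 1)
    · left
      have h3 := G_add_le (d + 1) k (2 ^ (n + 1) - k)
      rw [Nat.add_sub_cancel' h2.le, G_pow'] at h3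
      omega
    · right
      omega
  have hBle : B (n + 1) d ≤ 2 ^ (n + 1) := by
    rw [← G_pow', G]
    refine (Finset.sum_le_sum (g := fun _ => 1) fun x _ => ?_).trans (by simp)
    split_ifs <;> omega
  have hG' : (k : ℝ) ≤ G (d + 1) k + ((2 : ℝ) ^ (n + 1) - B (n + 1) d) := by
    rcases hG with hG | hG
    · have h3 : ((k : ℕ) : ℝ) ≤ ((G (d + 1) k + (2 ^ (n + 1) - B (n + 1) d) : ℕ) : ℝ) := by
        exact_mod_cast hG
      rw [Nat.cast_add, Nat.cast_sub hBle] at h3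
      push_cast at h3
      exact h3
    · omega
  have hS : (1 - ε) * k ≤ G (d + 1) k := by linarith
  have hS4 : 4 ≤ G (d + 1) k := by
    have : ((4 : ℕ) : ℝ) ≤ G (d + 1) k := by
      push_cast
      nlinarith
    exact_mod_cast this
  refine ⟨G (d + 1) k, by omega, half_mul_le le_rfl (by omega) ?_, le_rfl⟩
  have : ((2 * m + 1 : ℕ) : ℝ) ≤ G (d + 1) k := by
    push_cast
    nlinarith
  exact_mod_cast this

end Pool.Agent.R558.LowDeg
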