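import Mathlib
import Pool.Agent.R558.LowDeg.Basic

/-!
# Numerical estimates
-/

set_option autoImplicit false

open Finset

namespace Pool.Agent.R558.LowDeg

theorem B_le_real (N d : ℕ) (A : ℝ) (hA : 1 ≤ A) :
    (B N d : ℝ) ≤ A ^ d * (1 + 1 / A) ^ N := by
  have hA0 : 0 < A := by linarith
  have h1 : (1 + 1 / A) ^ N = ∑ j ∈ range (N + 1), (1 / A) ^ j * (N.choose j : ℝ) := by
    rw [add_comm, add_pow]
    refine Finset.sum_congr rfl fun j _ => ?_
    rw [one_pow, mul_one]
  have h2 : (B N d : ℝ) ≤ ∑ j ∈ range (d + 1), A ^ d * ((1 / A) ^ j * (N.choose j : ℝ)) := by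
    rw [B]
    push_cast
    refine Finset.sum_le_sum fun j hj => ?_
    rw [mem_range] at hj
    have h3 : (1 : ℝ) ≤ A ^ d * (1 / A) ^ j := by
      rw [one_div, inv_pow, ← div_eq_mul_inv, le_div_iff₀ (by positivity), one_mul]
      exact pow_le_pow_right₀ hA (by omega)
    calc (N.choose j : ℝ) = 1 * N.choose j := (one_mul _).symm
      _ ≤ (A ^ d * (1 / A) ^ j) * N.choose j :=
          mul_le_mul_of_nonneg_right h3 (Nat.cast_nonneg _)
      _ = _ := by ring
  refine h2.trans ?_
  rw [← Finset.mul_sum]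
  refine mul_le_mul_of_nonneg_left ?_ (by positivity)
  rw [h1]
  by_cases hd : d ≤ N
  · refine Finset.sum_le_sum_of_subset_of_nonneg ?_ fun j _ _ => by positivity
    intro j hj
    rw [mem_range] at hj ⊢
    omega
  · refine le_of_eq (Finset.sum_subset ?_ ?_).symm
    · intro j hj
      rw [mem_range] at hj ⊢
      omega
    · intro j _ hj
      rw [mem_range] at hj
      rw [Nat.choose_eq_zero_of_lt (by omega)]
      simp

/-- degree at most a small multiple of `log k`: `m ≥ k ^ η` is enough -/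
theorem quant (r s : ℕ) (η : ℝ) (hη : 0 < η) :
    ∃ c : ℝ, 0 < c ∧ ∃ k₀ : ℕ, ∀ k ≥ k₀, ∀ D : ℕ, (D : ℝ) ≤ c * Real.log k →
      ∀ m : ℕ, (k : ℝ) ^ η ≤ m → ∀ t : ℕ, 2 ^ t < k →
        s * D * ((2 ^ r - 1) * B (r * t) (D - 1)) + t < m := by
  set A : ℝ := 4 * r / η + 3 with hAdef
  have hA3 : 3 ≤ A := by
    have : 0 ≤ 4 * (r : ℝ) / η := by positivity
    linarith
  have hlogA : 1 ≤ Real.log A := by
    rw [Real.le_log_iff_exp_le (by linarith)]
    have := Real.exp_one_lt_d9
    linarith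
  have hlogA0 : 0 < Real.log A := by linarith
  refine ⟨η / (4 * Real.log A), by positivity, ?_⟩
  -- the asymptotic inequality
  have hlim : ∀ᶠ x : ℝ in Filter.atTop,
      (s * 2 ^ r * η + 2) * (Real.log x * x ^ (0.62 * η)) < x ^ η := by
    have h1 : (fun x : ℝ => Real.log x) =o[Filter.atTop] fun x : ℝ => x ^ (0.38 * η) :=
      isLittleO_log_rpow_atTop (by positivity)
    have hK : 0 < (s * 2 ^ r * η + 2 : ℝ) := by positivity
    have h2 := h1.def (show (0 : ℝ) < 1 / (2 * (s * 2 ^ r * η + 2)) by positivity)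
    filter_upwards [h2, Filter.eventually_gt_atTop 1] with x hx hx1
    have hx0 : 0 < x := by linarith
    have hlog : 0 ≤ Real.log x := Real.log_nonneg hx1.le
    have hp : 0 < x ^ (0.38 * η) := Real.rpow_pos_of_pos hx0 _
    have hp2 : 0 < x ^ (0.62 * η) := Real.rpow_pos_of_pos hx0 _
    rw [Real.norm_eq_abs, abs_of_nonneg hlog, Real.norm_eq_abs, abs_of_pos hp] at hx
    have hsplit : x ^ η = x ^ (0.38 * η) * x ^ (0.62 * η) := by
      rw [← Real.rpow_add hx0]
      congr 1
      ring
    rw [hsplit, ← mul_assoc]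
    refine mul_lt_mul_of_pos_right ?_ hp2
    have h3 : (s * 2 ^ r * η + 2) * Real.log x ≤
        (s * 2 ^ r * η + 2) * (1 / (2 * (s * 2 ^ r * η + 2)) * x ^ (0.38 * η)) :=
      mul_le_mul_of_nonneg_left hx hK.le
    have h4 : (s * 2 ^ r * η + 2) * (1 / (2 * (s * 2 ^ r * η + 2)) * x ^ (0.38 * η)) =
        x ^ (0.38 * η) / 2 := by
      field_simp
    linarith
  obtain ⟨x₀, hx₀⟩ := Filter.eventually_atTop.1 hlim
  refine ⟨max 2 ⌈x₀⌉₊, ?_⟩
  intro k hk D hD m hm t ht
  have hk2 : 2 ≤ k := (le_max_left _ _).trans hk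
  have hkx : x₀ ≤ k := (Nat.le_ceil x₀).trans (by exact_mod_cast (le_max_right _ _).trans hk)
  have hk0 : (0 : ℝ) < k := by positivity
  have hk1 : (1 : ℝ) < k := by exact_mod_cast (by omega : 1 < k)
  have hlogk : 0 < Real.log k := Real.log_pos hk1
  have hmain := hx₀ k hkx
  have hlog2 : (0.6931471803 : ℝ) < Real.log 2 := Real.log_two_gt_d9
  have htlog : (t : ℝ) * Real.log 2 ≤ Real.log k := by
    rw [← Real.log_pow]
    refine Real.log_le_log (by positivity) ?_
    exact_mod_cast ht.le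
  -- bound on `B`
  have hB : (B (r * t) (D - 1) : ℝ) ≤ (k : ℝ) ^ (0.62 * η) := by
    have h1 := B_le_real (r * t) (D - 1) A (by linarith)
    have h2 : A ^ (D - 1) ≤ (k : ℝ) ^ (η / 4) := by
      have h3 : A ^ (D - 1) ≤ A ^ D := pow_le_pow_right₀ (by linarith) (Nat.sub_le _ _)
      refine h3.trans ?_
      rw [← Real.rpow_natCast, Real.rpow_def_of_pos (by linarith), Real.rpow_def_of_pos hk0]
      refine Real.exp_le_exp.2 ?_
      calc Real.log A * D ≤ Real.log A * (η / (4 * Real.log A) * Real.log k) :=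
            mul_le_mul_of_nonneg_left hD hlogA0.le
        _ = Real.log k * (η / 4) := by
            field_simp
    have h4 : (1 + 1 / A) ^ (r * t) ≤ (k : ℝ) ^ (0.37 * η) := by
      have h5 : (1 + 1 / A) ≤ Real.exp (1 / A) := by
        have := Real.add_one_le_exp (1 / A)
        linarith
      have h6 : (1 + 1 / A) ^ (r * t) ≤ Real.exp (1 / A) ^ (r * t) :=
        pow_le_pow_left₀ (by positivity) h5 _
      refine h6.trans ?_
      rw [← Real.exp_nat_mul, Real.rpow_def_of_pos hk0]
      refine Real.exp_le_exp.2 ?_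
      have h7 : (r : ℝ) * (1 / A) ≤ η / 4 := by
        rw [mul_one_div, div_le_iff₀ (by linarith)]
        have : η / 4 * (4 * r / η) = r := by
          field_simp
        rw [hAdef, mul_add, this]
        nlinarith
      have h8 : (t : ℝ) ≤ Real.log k / Real.log 2 := by
        rw [le_div_iff₀ (by linarith)]
        exact htlog
      have h9 : (t : ℝ) ≤ 1.48 * Real.log k := by
        refine h8.trans ?_
        rw [div_le_iff₀ (by linarith)]
        nlinarith
      calc ((r * t : ℕ) : ℝ) * (1 / A) = t * (r * (1 / A)) := by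
            push_cast
            ring
        _ ≤ (1.48 * Real.log k) * (η / 4) := by
            refine mul_le_mul h9 h7 (by positivity) (by positivity)
        _ = Real.log k * (0.37 * η) := by ring
    calc (B (r * t) (D - 1) : ℝ) ≤ A ^ (D - 1) * (1 + 1 / A) ^ (r * t) := h1
      _ ≤ (k : ℝ) ^ (η / 4) * (k : ℝ) ^ (0.37 * η) :=
          mul_le_mul h2 h4 (by positivity) (by positivity)
      _ = (k : ℝ) ^ (0.62 * η) := by
          rw [← Real.rpow_add hk0]
          congr 1
          ring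
  have hreal : ((s * D * ((2 ^ r - 1) * B (r * t) (D - 1)) + t : ℕ) : ℝ) < m := by
    have hpow : ((2 ^ r - 1 : ℕ) : ℝ) ≤ 2 ^ r := by
      have : (2 ^ r - 1 : ℕ) ≤ 2 ^ r := Nat.sub_le _ _
      exact_mod_cast this
    have hDle : (D : ℝ) ≤ η * Real.log k := by
      refine hD.trans ?_
      refine mul_le_mul_of_nonneg_right ?_ hlogk.le
      rw [div_le_iff₀ (by positivity)]
      nlinarith
    have htle : (t : ℝ) ≤ 2 * Real.log k := by nlinarith
    have hkpow : 1 ≤ (k : ℝ) ^ (0.62 * η) := Real.one_le_rpow hk1.le (by positivity)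
    calc ((s * D * ((2 ^ r - 1) * B (r * t) (D - 1)) + t : ℕ) : ℝ)
        = s * D * ((2 ^ r - 1 : ℕ) * (B (r * t) (D - 1) : ℝ)) + t := by push_cast; ring
      _ ≤ s * (η * Real.log k) * (2 ^ r * (k : ℝ) ^ (0.62 * η)) + 2 * Real.log k := by
          refine add_le_add ?_ htle
          refine mul_le_mul ?_ ?_ (by positivity) (by positivity)
          · exact mul_le_mul_of_nonneg_left hDle (Nat.cast_nonneg _)
          · exact mul_le_mul hpow hB (Nat.cast_nonneg _) (by positivity)
      _ ≤ s * (η * Real.log k) * (2 ^ r * (k : ℝ) ^ (0.62 * η)) +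
            2 * (Real.log k * (k : ℝ) ^ (0.62 * η)) := by
          refine add_le_add le_rfl ?_
          refine mul_le_mul_of_nonneg_left ?_ (by norm_num)
          exact le_mul_of_one_le_right hlogk.le hkpow
      _ = (s * 2 ^ r * η + 2) * (Real.log k * (k : ℝ) ^ (0.62 * η)) := by ring
      _ < (k : ℝ) ^ η := hmain
      _ ≤ m := hm
  exact_mod_cast hreal

end Pool.Agent.R558.LowDeg
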