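import Mathlib
import Pool.Agent.R558.LowDeg.Step

/-!
# Homogeneous sets of low degree colourings
-/

set_option autoImplicit false

open MvPolynomial Finset

namespace Pool.Agent.R558.LowDeg

/-- **Upper bound.** -/
theorem upper (r m s D t k : ℕ) (hD : 1 ≤ D) (hk : k ≤ 2 ^ (t + 1))
    (hm : s * D * ((2 ^ r - 1) * B (r * t) (D - 1)) + t < m)
    (κ : Type) (c : Finset (Fin m → ZMod 2) → κ)
    (P : Fin s → MvPolynomial (Fin r × Fin m) (ZMod 2)) (g : (Fin s → ZMod 2) → κ)
    (hP : ∀ l, (P l).totalDegree ≤ D)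
    (hc : ∀ A : Finset (Fin m → ZMod 2), A.card = r → ∃ v : Fin r → Fin m → ZMod 2,
      Function.Injective v ∧ Finset.univ.image v = A ∧ c A = g (fun l => eval (pt v) (P l))) :
    ∃ X : Finset (Fin m → ZMod 2), X.card = k ∧
      ∀ A ⊆ X, ∀ A' ⊆ X, A.card = r → A'.card = r → c A = c A' := by
  classical
  obtain ⟨L, hL, hconst⟩ := exists_subspace r m s D hD P hP t hm
  have hcard : (univ.image L : Finset (Fin m → ZMod 2)).card = 2 ^ (t + 1) := by
    rw [Finset.card_image_of_injective _ hL, Finset.card_univ]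
    simp
  obtain ⟨X, hX, hXk⟩ := Finset.exists_subset_card_eq (hcard ▸ hk)
  have key : ∀ A ⊆ X, A.card = r → c A = g (fun l => eval 0 (P l)) := by
    intro A hA hAr
    obtain ⟨v, hv, hvA, hcA⟩ := hc A hAr
    have h1 : ∀ i, ∃ a, L a = v i := by
      intro i
      have : v i ∈ univ.image L := hX (hA (hvA ▸ Finset.mem_image_of_mem _ (mem_univ i)))
      obtain ⟨a, -, ha⟩ := Finset.mem_image.1 this
      exact ⟨a, ha⟩
    choose a ha using h1
    rw [hcA]
    congr 1
    funext l
    have h2 : v = fun i => L (a i) := by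
      funext i
      rw [ha]
    rw [h2]
    exact hconst a l
  refine ⟨X, hXk, ?_⟩
  intro A hA A' hA' h1 h2
  rw [key A hA h1, key A' hA' h2]

end Pool.Agent.R558.LowDeg
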